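import Mathlib

/-!
# Estimates for binomial sums
-/

set_option autoImplicit false

namespace Pool.Agent.Helper93K9.Wendel

open Finset Real Filter

/-- the sum which bounds the potential -/
noncomputable def FD (D : ℕ) (a : ℝ) : ℝ := ∑ w ∈ range (D + 1), (D.choose w : ℝ) * ((1 + a ^ w) / 2) ^ D

/-- Chernoff bound for binomial coefficients -/
theorem tail_le (D : ℕ) (s t : ℝ) (hs : 0 ≤ s) :
    ∑ w ∈ (range (D + 1)).filter (fun w : ℕ => (w : ℝ) ≤ t * D), (D.choose w : ℝ) ≤
      ((1 + exp (-s)) * exp (s * t)) ^ D := by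
  calc ∑ w ∈ (range (D + 1)).filter (fun w : ℕ => (w : ℝ) ≤ t * D), (D.choose w : ℝ)
      ≤ ∑ w ∈ (range (D + 1)).filter (fun w : ℕ => (w : ℝ) ≤ t * D),
          (D.choose w : ℝ) * exp (-s) ^ w * exp (s * t) ^ D := by
        refine Finset.sum_le_sum fun w hw => ?_
        rw [Finset.mem_filter] at hw
        rw [mul_assoc]
        refine le_mul_of_one_le_right (by positivity) ?_
        rw [← exp_nat_mul, ← exp_nat_mul, ← exp_add]
        refine one_le_exp ?_
        nlinarith [hw.2]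
    _ ≤ ∑ w ∈ range (D + 1), (D.choose w : ℝ) * exp (-s) ^ w * exp (s * t) ^ D := by
        refine Finset.sum_le_sum_of_subset_of_nonneg (Finset.filter_subset _ _) ?_
        intro w _ _
        positivity
    _ = ((1 + exp (-s)) * exp (s * t)) ^ D := by
        rw [mul_pow, ← Finset.sum_mul]
        congr 1
        rw [add_comm 1 (exp (-s)), add_pow]
        refine Finset.sum_congr rfl fun w _ => ?_
        simp [mul_comm]

theorem full_sum (D : ℕ) (z : ℝ) :
    ∑ w ∈ range (D + 1), (D.choose w : ℝ) * z ^ w = (1 + z) ^ D := by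
  rw [add_comm 1 z, add_pow]
  refine Finset.sum_congr rfl fun w _ => ?_
  simp [mul_comm]

theorem choose_sum (D : ℕ) : ∑ w ∈ range (D + 1), (D.choose w : ℝ) = 2 ^ D := by
  have := full_sum D 1
  simp only [one_pow, mul_one] at this
  rw [this]
  norm_num

theorem one_sub_exp_ge (t δ : ℝ) (ht : 0 ≤ t) (htd : t ≤ δ) : t * (1 - δ) ≤ 1 - exp (-t) := by
  have h1 : exp (-t) ≤ 1 / (1 + t) := by
    rw [exp_neg, inv_eq_one_div]
    exact one_div_le_one_div_of_le (by linarith) (by linarith [add_one_le_exp t])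
  have h2 : 1 / (1 + t) ≤ 1 - t * (1 - t) := by
    rw [div_le_iff₀ (by linarith)]
    nlinarith [mul_nonneg ht (mul_nonneg ht ht)]
  nlinarith

/-- the four ranges -/
theorem FD_le (D : ℕ) (a l δ τ s z' : ℝ) (ha0 : 0 ≤ a) (ha : a ≤ exp (-l)) (hl : 0 ≤ l)
    (hδ0 : 0 < δ) (hδ1 : δ ≤ 1 / 8)
    (hz' : z' = exp (-(l * ((1 / 2 - δ) * D))))
    (hs : 0 ≤ s) (h2 : (1 + exp (-s)) * exp (s * τ) * ((1 + exp (-δ)) / 2) ≤ 1)
    (h3 : exp (-(2 * δ ^ 2)) * (1 + exp (-(l * (τ * D)))) ≤ 1) :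
    FD D a ≤ 2 * exp (D * z') + 2 := by
  have haw : ∀ w : ℕ, a ^ w ≤ exp (-(l * w)) := by
    intro w
    calc a ^ w ≤ exp (-l) ^ w := pow_le_pow_left₀ ha0 ha w
      _ = exp (-(l * w)) := by rw [← exp_nat_mul]; ring_nf
  have hD0 : (0 : ℝ) ≤ D := Nat.cast_nonneg D
  set R1 := (range (D + 1)).filter (fun w : ℕ => l * w ≤ δ) with hR1
  set R2 := (range (D + 1)).filter (fun w : ℕ => δ < l * w ∧ (w : ℝ) ≤ τ * D) with hR2
  set R3 := (range (D + 1)).filter (fun w : ℕ => τ * D < (w : ℝ) ∧ (w : ℝ) ≤ (1 / 2 - δ) * D) with hR3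
  set R4 := (range (D + 1)).filter (fun w : ℕ => (1 / 2 - δ) * D < (w : ℝ)) with hR4
  set f : ℕ → ℝ := fun w => (D.choose w : ℝ) * ((1 + a ^ w) / 2) ^ D with hf
  have hf0 : ∀ w, 0 ≤ f w := by
    intro w
    have : 0 ≤ a ^ w := pow_nonneg ha0 w
    positivity
  have hcover : range (D + 1) ⊆ ((R1 ∪ R2) ∪ R3) ∪ R4 := by
    intro w hw
    simp only [hR1, hR2, hR3, hR4, Finset.mem_union, Finset.mem_filter, hw, true_and]
    by_cases c1 : l * w ≤ δ
    · exact Or.inl (Or.inl (Or.inl c1))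
    · by_cases c2 : (w : ℝ) ≤ τ * D
      · exact Or.inl (Or.inl (Or.inr ⟨by linarith, c2⟩))
      · by_cases c3 : (w : ℝ) ≤ (1 / 2 - δ) * D
        · exact Or.inl (Or.inr ⟨by linarith, c3⟩)
        · exact Or.inr (by linarith)
  have hsplit : FD D a ≤ ∑ w ∈ R1, f w + ∑ w ∈ R2, f w + ∑ w ∈ R3, f w + ∑ w ∈ R4, f w := by
    have e1 : FD D a ≤ ∑ w ∈ ((R1 ∪ R2) ∪ R3) ∪ R4, f w :=
      Finset.sum_le_sum_of_subset_of_nonneg hcover fun w _ _ => hf0 w
    have un : ∀ A B : Finset ℕ, ∑ w ∈ A ∪ B, f w ≤ ∑ w ∈ A, f w + ∑ w ∈ B, f w := by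
      intro A B
      rw [← Finset.sum_union_inter]
      have : 0 ≤ ∑ w ∈ A ∩ B, f w := Finset.sum_nonneg fun w _ => hf0 w
      linarith
    have a1 := un ((R1 ∪ R2) ∪ R3) R4
    have a2 := un (R1 ∪ R2) R3
    have a3 := un R1 R2
    linarith
  -- range 1
  have b1 : ∑ w ∈ R1, f w ≤ exp (D * z') := by
    set z := exp (-(l * ((1 - δ) * D / 2))) with hz
    have hzz : z ≤ z' := by
      rw [hz, hz']
      refine exp_le_exp.2 (neg_le_neg ?_)
      refine mul_le_mul_of_nonneg_left ?_ hl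
      nlinarith
    have hterm : ∀ w ∈ R1, f w ≤ (D.choose w : ℝ) * z ^ w := by
      intro w hw
      rw [hR1, Finset.mem_filter] at hw
      refine mul_le_mul_of_nonneg_left ?_ (Nat.cast_nonneg _)
      have c1 : (1 + a ^ w) / 2 ≤ exp (-(l * w * (1 - δ) / 2)) := by
        have d1 := one_sub_exp_ge (l * w) δ (by positivity) hw.2
        have d2 := haw w
        have d3 := add_one_le_exp (-(l * w * (1 - δ) / 2))
        linarith
      calc ((1 + a ^ w) / 2) ^ D ≤ exp (-(l * w * (1 - δ) / 2)) ^ D :=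
            pow_le_pow_left₀ (by have := pow_nonneg ha0 w; positivity) c1 D
        _ = z ^ w := by
            rw [hz, ← exp_nat_mul, ← exp_nat_mul]
            congr 1
            ring
    calc ∑ w ∈ R1, f w ≤ ∑ w ∈ R1, (D.choose w : ℝ) * z ^ w := Finset.sum_le_sum hterm
      _ ≤ ∑ w ∈ range (D + 1), (D.choose w : ℝ) * z ^ w := by
          refine Finset.sum_le_sum_of_subset_of_nonneg (Finset.filter_subset _ _) ?_
          intro w _ _
          have : 0 < z := exp_pos _
          positivity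
      _ = (1 + z) ^ D := full_sum D z
      _ ≤ (exp z') ^ D := by
          refine pow_le_pow_left₀ (by have : 0 < z := exp_pos _; linarith) ?_ D
          linarith [add_one_le_exp z']
      _ = exp (D * z') := by rw [← exp_nat_mul]
  -- range 2
  have b2 : ∑ w ∈ R2, f w ≤ 1 := by
    have hterm : ∀ w ∈ R2, f w ≤ (D.choose w : ℝ) * ((1 + exp (-δ)) / 2) ^ D := by
      intro w hw
      rw [hR2, Finset.mem_filter] at hw
      refine mul_le_mul_of_nonneg_left ?_ (Nat.cast_nonneg _)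
      refine pow_le_pow_left₀ (by have := pow_nonneg ha0 w; positivity) ?_ D
      have d2 := haw w
      have d3 : exp (-(l * w)) ≤ exp (-δ) := exp_le_exp.2 (by linarith [hw.2.1])
      linarith
    calc ∑ w ∈ R2, f w ≤ ∑ w ∈ R2, (D.choose w : ℝ) * ((1 + exp (-δ)) / 2) ^ D :=
          Finset.sum_le_sum hterm
      _ = (∑ w ∈ R2, (D.choose w : ℝ)) * ((1 + exp (-δ)) / 2) ^ D := by rw [Finset.sum_mul]
      _ ≤ ((1 + exp (-s)) * exp (s * τ)) ^ D * ((1 + exp (-δ)) / 2) ^ D := by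
          refine mul_le_mul_of_nonneg_right ?_ (by positivity)
          refine le_trans ?_ (tail_le D s τ hs)
          refine Finset.sum_le_sum_of_subset_of_nonneg ?_ fun w _ _ => Nat.cast_nonneg _
          intro w hw
          rw [hR2, Finset.mem_filter] at hw
          rw [Finset.mem_filter]
          exact ⟨hw.1, hw.2.2⟩
      _ = ((1 + exp (-s)) * exp (s * τ) * ((1 + exp (-δ)) / 2)) ^ D := by rw [← mul_pow]
      _ ≤ 1 := pow_le_one₀ (by positivity) h2
  -- range 3
  have b3 : ∑ w ∈ R3, f w ≤ 1 := by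
    set y := exp (-(l * (τ * D))) with hy
    have hterm : ∀ w ∈ R3, f w ≤ (D.choose w : ℝ) * ((1 + y) / 2) ^ D := by
      intro w hw
      rw [hR3, Finset.mem_filter] at hw
      refine mul_le_mul_of_nonneg_left ?_ (Nat.cast_nonneg _)
      refine pow_le_pow_left₀ (by have := pow_nonneg ha0 w; positivity) ?_ D
      have d2 := haw w
      have d3 : exp (-(l * w)) ≤ y := by
        rw [hy]
        refine exp_le_exp.2 (neg_le_neg ?_)
        exact mul_le_mul_of_nonneg_left hw.2.1.le hl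
      linarith
    have hcosh : (1 + exp (-(4 * δ))) * exp (4 * δ * (1 / 2 - δ)) / 2 ≤ exp (-(2 * δ ^ 2)) := by
      have e1 : (1 + exp (-(4 * δ))) * exp (4 * δ * (1 / 2 - δ)) / 2 =
          cosh (2 * δ) * exp (-(4 * δ ^ 2)) := by
        rw [cosh_eq]
        have : (1 + exp (-(4 * δ))) * exp (4 * δ * (1 / 2 - δ)) =
            (exp (2 * δ) + exp (-(2 * δ))) * exp (-(4 * δ ^ 2)) := by
          rw [add_mul, add_mul, one_mul, ← exp_add, ← exp_add, ← exp_add]
          congr 2 <;> ring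
        rw [this]
        ring
      rw [e1]
      calc cosh (2 * δ) * exp (-(4 * δ ^ 2)) ≤ exp ((2 * δ) ^ 2 / 2) * exp (-(4 * δ ^ 2)) :=
            mul_le_mul_of_nonneg_right (cosh_le_exp_half_sq _) (exp_pos _).le
        _ = exp (-(2 * δ ^ 2)) := by rw [← exp_add]; congr 1; ring
    have hy0 : 0 < y := exp_pos _
    calc ∑ w ∈ R3, f w ≤ ∑ w ∈ R3, (D.choose w : ℝ) * ((1 + y) / 2) ^ D :=
          Finset.sum_le_sum hterm
      _ = (∑ w ∈ R3, (D.choose w : ℝ)) * ((1 + y) / 2) ^ D := by rw [Finset.sum_mul]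
      _ ≤ ((1 + exp (-(4 * δ))) * exp (4 * δ * (1 / 2 - δ))) ^ D * ((1 + y) / 2) ^ D := by
          refine mul_le_mul_of_nonneg_right ?_ (by positivity)
          refine le_trans ?_ (tail_le D (4 * δ) (1 / 2 - δ) (by linarith))
          refine Finset.sum_le_sum_of_subset_of_nonneg ?_ fun w _ _ => Nat.cast_nonneg _
          intro w hw
          rw [hR3, Finset.mem_filter] at hw
          rw [Finset.mem_filter]
          exact ⟨hw.1, hw.2.2⟩
      _ = ((1 + exp (-(4 * δ))) * exp (4 * δ * (1 / 2 - δ)) / 2 * (1 + y)) ^ D := by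
          rw [← mul_pow]; congr 1; ring
      _ ≤ 1 := by
          refine pow_le_one₀ (by positivity) ?_
          exact (mul_le_mul_of_nonneg_right hcosh (by linarith)).trans h3
  -- range 4
  have b4 : ∑ w ∈ R4, f w ≤ exp (D * z') := by
    have hterm : ∀ w ∈ R4, f w ≤ (D.choose w : ℝ) * ((1 + z') / 2) ^ D := by
      intro w hw
      rw [hR4, Finset.mem_filter] at hw
      refine mul_le_mul_of_nonneg_left ?_ (Nat.cast_nonneg _)
      refine pow_le_pow_left₀ (by have := pow_nonneg ha0 w; positivity) ?_ D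
      have d2 := haw w
      have d3 : exp (-(l * w)) ≤ z' := by
        rw [hz']
        refine exp_le_exp.2 (neg_le_neg ?_)
        exact mul_le_mul_of_nonneg_left hw.2.le hl
      linarith
    have hz0 : 0 < z' := by rw [hz']; exact exp_pos _
    calc ∑ w ∈ R4, f w ≤ ∑ w ∈ R4, (D.choose w : ℝ) * ((1 + z') / 2) ^ D :=
          Finset.sum_le_sum hterm
      _ ≤ ∑ w ∈ range (D + 1), (D.choose w : ℝ) * ((1 + z') / 2) ^ D := by
          refine Finset.sum_le_sum_of_subset_of_nonneg (Finset.filter_subset _ _) ?_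
          intro w _ _
          positivity
      _ = (1 + z') ^ D := by
          rw [← Finset.sum_mul, choose_sum, ← mul_pow]
          congr 1
          ring
      _ ≤ (exp z') ^ D := pow_le_pow_left₀ (by linarith) (by linarith [add_one_le_exp z']) D
      _ = exp (D * z') := by rw [← exp_nat_mul]
  linarith

theorem exists_tau (δ : ℝ) (hδ : 0 < δ) :
    ∃ τ s : ℝ, 0 < τ ∧ 0 < s ∧ (1 + exp (-s)) * exp (s * τ) * ((1 + exp (-δ)) / 2) ≤ 1 := by
  set q := (1 + exp (-δ)) / 2 with hq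
  have hq0 : 0 < q := by positivity
  have hq1 : q < 1 := by
    have : exp (-δ) < 1 := by
      rw [exp_lt_one_iff]; linarith
    rw [hq]; linarith
  have hgt : 1 < 1 / q := by rw [lt_div_iff₀ hq0]; linarith
  have hlim : Tendsto (fun s : ℝ => (1 + exp (-s)) * q) atTop (nhds ((1 + 0) * q)) :=
    (tendsto_const_nhds.add tendsto_exp_neg_atTop_nhds_zero).mul_const q
  rw [add_zero, one_mul] at hlim
  obtain ⟨s, hs1, hs0⟩ := ((hlim.eventually_lt_const hq1).and (eventually_gt_atTop 0)).exists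
  have hpos : 0 < (1 + exp (-s)) * q := by positivity
  refine ⟨-log ((1 + exp (-s)) * q) / s, s, ?_, hs0, ?_⟩
  · exact div_pos (neg_pos.2 (log_neg hpos hs1)) hs0
  · rw [mul_div_cancel₀ _ hs0.ne', exp_neg (log _), exp_log hpos]
    rw [mul_right_comm, mul_inv_cancel₀ hpos.ne']

end Pool.Agent.Helper93K9.Wendel
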