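import Mathlib

/-!
# Counting the cells of a central arrangement

`cells f` is the set of the sign vectors realised by the linear functionals `f 0, …, f (n-1)`.
Lower bound: the number of sets `S` of indices such that `f` is linearly independent on `insert e S`
for every index `e`.  Upper bound: the number for functionals in general position.
-/

set_option autoImplicit false

namespace Pool.Agent.Helper93K9.Wendel

open Finset Module

/-- sign -/
def sg (b : Bool) : ℝ := if b then 1 else -1

theorem sg_true : sg true = 1 := rfl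
theorem sg_false : sg false = -1 := rfl

section
variable {V : Type} [AddCommGroup V] [Module ℝ V]

open Classical in
/-- realised sign vectors -/
noncomputable def cells {n : ℕ} (f : Fin n → V →ₗ[ℝ] ℝ) : Finset (Fin n → Bool) :=
  univ.filter fun σ => ∃ y : V, ∀ i, 0 < sg (σ i) * f i y

open Classical in
/-- good sets -/
noncomputable def good {n : ℕ} (f : Fin n → V →ₗ[ℝ] ℝ) : Finset (Finset (Fin n)) :=
  univ.filter fun S => ∀ e, LinearIndepOn ℝ f (↑(insert e S) : Set (Fin n))

theorem mem_cells {n : ℕ} {f : Fin n → V →ₗ[ℝ] ℝ} {σ : Fin n → Bool} :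
    σ ∈ cells f ↔ ∃ y : V, ∀ i, 0 < sg (σ i) * f i y := by
  simp [cells]

theorem mem_good {n : ℕ} {f : Fin n → V →ₗ[ℝ] ℝ} {S : Finset (Fin n)} :
    S ∈ good f ↔ ∀ e, LinearIndepOn ℝ f (↑(insert e S) : Set (Fin n)) := by
  classical
  simp [good]

/-- restriction of the functionals to the kernel of the first -/
noncomputable def contr {n : ℕ} (f : Fin (n + 1) → V →ₗ[ℝ] ℝ) :
    Fin n → (LinearMap.ker (f 0)) →ₗ[ℝ] ℝ :=
  fun i => (f i.succ).comp (LinearMap.ker (f 0)).subtype

open Classical in
theorem card_filter_cons {n : ℕ} (P : (Fin (n + 1) → Bool) → Prop) :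
    (univ.filter P).card =
      (univ.filter fun τ : Fin n → Bool => P (Fin.cons true τ)).card +
      (univ.filter fun τ : Fin n → Bool => P (Fin.cons false τ)).card := by
  rw [Finset.card_filter, Finset.card_filter, Finset.card_filter]
  rw [← (Fin.consEquiv (fun _ : Fin (n + 1) => Bool)).sum_comp]
  rw [Fintype.sum_prod_type]
  simp only [Fin.consEquiv, Equiv.coe_fn_mk, Fintype.sum_bool]
  congr!

theorem cells_cons {n : ℕ} (f : Fin (n + 1) → V →ₗ[ℝ] ℝ) (b : Bool) (τ : Fin n → Bool) :
    (Fin.cons b τ : Fin (n + 1) → Bool) ∈ cells f ↔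
      ∃ y : V, 0 < sg b * f 0 y ∧ ∀ i, 0 < sg (τ i) * f (Fin.succ i) y := by
  rw [mem_cells]
  constructor
  · rintro ⟨y, hy⟩
    exact ⟨y, by simpa using hy 0, fun i => by simpa using hy i.succ⟩
  · rintro ⟨y, h0, hy⟩
    refine ⟨y, fun i => ?_⟩
    refine Fin.cases ?_ (fun i => ?_) i
    · simpa using h0
    · simpa using hy i

/-- a strict system of inequalities stays true after a small move -/
theorem small_move {n : ℕ} (g : Fin n → V →ₗ[ℝ] ℝ) (τ : Fin n → Bool) (y v : V)
    (hy : ∀ i, 0 < sg (τ i) * g i y) :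
    ∃ t : ℝ, 0 < t ∧ ∀ i, 0 < sg (τ i) * g i (y + t • v) ∧ 0 < sg (τ i) * g i (y - t • v) := by
  have h1 : ∀ i, ∀ᶠ t : ℝ in nhdsWithin 0 (Set.Ioi 0),
      0 < sg (τ i) * g i (y + t • v) ∧ 0 < sg (τ i) * g i (y - t • v) := by
    intro i
    have c1 : Continuous fun t : ℝ => sg (τ i) * g i (y + t • v) := by
      simp only [map_add, map_smul, smul_eq_mul]
      fun_prop
    have c2 : Continuous fun t : ℝ => sg (τ i) * g i (y - t • v) := by
      simp only [map_sub, map_smul, smul_eq_mul]
      fun_prop
    have e1 : ∀ᶠ t : ℝ in nhds 0, 0 < sg (τ i) * g i (y + t • v) := by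
      have := c1.tendsto 0
      simp only [zero_smul, add_zero] at this
      exact this.eventually_const_lt (hy i)
    have e2 : ∀ᶠ t : ℝ in nhds 0, 0 < sg (τ i) * g i (y - t • v) := by
      have := c2.tendsto 0
      simp only [zero_smul, sub_zero] at this
      exact this.eventually_const_lt (hy i)
    exact (e1.and e2).filter_mono nhdsWithin_le_nhds
  have h2 := (Filter.eventually_all.2 h1).and self_mem_nhdsWithin
  obtain ⟨t, ht, ht0⟩ := h2.exists
  exact ⟨t, ht0, ht⟩

theorem lower_cells {n : ℕ} (f : Fin (n + 1) → V →ₗ[ℝ] ℝ) (h0 : f 0 ≠ 0) :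
    (cells (fun i => f i.succ)).card + (cells (contr f)).card ≤ (cells f).card := by
  classical
  obtain ⟨w, hw⟩ : ∃ w, f 0 w ≠ 0 := by
    by_contra h
    push Not at h
    exact h0 (LinearMap.ext h)
  set v : V := (f 0 w)⁻¹ • w with hv
  have hv1 : f 0 v = 1 := by simp [hv, hw]
  have hc : (cells f).card = _ := card_filter_cons (fun σ => ∃ y : V, ∀ i, 0 < sg (σ i) * f i y)
  set At := univ.filter fun τ : Fin n → Bool => ∃ y : V, ∀ i,
    0 < sg ((Fin.cons true τ : Fin (n + 1) → Bool) i) * f i y with hAt
  set Af := univ.filter fun τ : Fin n → Bool => ∃ y : V, ∀ i,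
    0 < sg ((Fin.cons false τ : Fin (n + 1) → Bool) i) * f i y with hAf
  have mt : ∀ τ, τ ∈ At ↔ ∃ y : V, 0 < sg true * f 0 y ∧ ∀ i, 0 < sg (τ i) * f (Fin.succ i) y := by
    intro τ
    rw [← cells_cons, mem_cells, hAt]
    simp
  have mf : ∀ τ, τ ∈ Af ↔ ∃ y : V, 0 < sg false * f 0 y ∧ ∀ i, 0 < sg (τ i) * f (Fin.succ i) y := by
    intro τ
    rw [← cells_cons, mem_cells, hAf]
    simp
  rw [hc, ← Finset.card_union_add_card_inter At Af]
  have both : ∀ (τ : Fin n → Bool) (y : V), f 0 y = 0 →
      (∀ i, 0 < sg (τ i) * f (Fin.succ i) y) → τ ∈ At ∧ τ ∈ Af := by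
    intro τ y hy0 hy
    obtain ⟨t, ht, hh⟩ := small_move (fun i => f i.succ) τ y v hy
    refine ⟨(mt τ).2 ⟨y + t • v, ?_, fun i => (hh i).1⟩, (mf τ).2 ⟨y - t • v, ?_, fun i => (hh i).2⟩⟩
    · simp [sg_true, hy0, hv1, ht]
    · simp [sg_false, hy0, hv1, ht]
  refine Nat.add_le_add (Finset.card_le_card ?_) (Finset.card_le_card ?_)
  · intro τ hτ
    rw [mem_cells] at hτ
    obtain ⟨y, hy⟩ := hτ
    rcases lt_trichotomy (f 0 y) 0 with h | h | h
    · refine Finset.mem_union_right _ ((mf τ).2 ⟨y, ?_, hy⟩)
      simp [sg_false, h]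
    · exact Finset.mem_union_left _ (both τ y h hy).1
    · refine Finset.mem_union_left _ ((mt τ).2 ⟨y, ?_, hy⟩)
      simp [sg_true, h]
  · intro τ hτ
    rw [mem_cells] at hτ
    obtain ⟨y, hy⟩ := hτ
    have := both τ y.1 (LinearMap.mem_ker.1 y.2) (fun i => by simpa [contr] using hy i)
    exact Finset.mem_inter.2 this

theorem upper_cells {n : ℕ} (f : Fin (n + 1) → V →ₗ[ℝ] ℝ) :
    (cells f).card ≤ (cells (fun i => f i.succ)).card + (cells (contr f)).card := by
  classical
  have hc : (cells f).card = _ := card_filter_cons (fun σ => ∃ y : V, ∀ i, 0 < sg (σ i) * f i y)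
  set At := univ.filter fun τ : Fin n → Bool => ∃ y : V, ∀ i,
    0 < sg ((Fin.cons true τ : Fin (n + 1) → Bool) i) * f i y with hAt
  set Af := univ.filter fun τ : Fin n → Bool => ∃ y : V, ∀ i,
    0 < sg ((Fin.cons false τ : Fin (n + 1) → Bool) i) * f i y with hAf
  have mt : ∀ τ, τ ∈ At ↔ ∃ y : V, 0 < sg true * f 0 y ∧ ∀ i, 0 < sg (τ i) * f (Fin.succ i) y := by
    intro τ
    rw [← cells_cons, mem_cells, hAt]
    simp
  have mf : ∀ τ, τ ∈ Af ↔ ∃ y : V, 0 < sg false * f 0 y ∧ ∀ i, 0 < sg (τ i) * f (Fin.succ i) y := by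
    intro τ
    rw [← cells_cons, mem_cells, hAf]
    simp
  rw [hc, ← Finset.card_union_add_card_inter At Af]
  refine Nat.add_le_add (Finset.card_le_card ?_) (Finset.card_le_card ?_)
  · intro τ hτ
    rw [mem_cells]
    rcases Finset.mem_union.1 hτ with h | h
    · obtain ⟨y, -, hy⟩ := (mt τ).1 h
      exact ⟨y, hy⟩
    · obtain ⟨y, -, hy⟩ := (mf τ).1 h
      exact ⟨y, hy⟩
  · intro τ hτ
    obtain ⟨h1, h2⟩ := Finset.mem_inter.1 hτ
    obtain ⟨y, hy0, hy⟩ := (mt τ).1 h1
    obtain ⟨z, hz0, hz⟩ := (mf τ).1 h2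
    rw [sg_true, one_mul] at hy0
    rw [sg_false] at hz0
    have hz0' : f 0 z < 0 := by linarith
    rw [mem_cells]
    refine ⟨⟨(f 0 y) • z - (f 0 z) • y, ?_⟩, fun i => ?_⟩
    · rw [LinearMap.mem_ker]
      simp
      ring
    · have : sg (τ i) * (contr f i) ⟨(f 0 y) • z - (f 0 z) • y, by
          rw [LinearMap.mem_ker]; simp; ring⟩ =
          (f 0 y) * (sg (τ i) * f i.succ z) + (-(f 0 z)) * (sg (τ i) * f i.succ y) := by
        simp [contr]
        ring
      rw [this]
      have a1 := mul_pos hy0 (hz i)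
      have a2 := mul_pos (neg_pos.2 hz0') (hy i)
      linarith

theorem good_le {n : ℕ} (f : Fin (n + 1) → V →ₗ[ℝ] ℝ) (h0 : f 0 ≠ 0) :
    (good f).card ≤ (good (fun i => f i.succ)).card + (good (contr f)).card := by
  classical
  let tl : Finset (Fin (n + 1)) → Finset (Fin n) := fun S => univ.filter fun i => i.succ ∈ S
  have mem_tl : ∀ S i, i ∈ tl S ↔ Fin.succ i ∈ S := by intro S i; simp [tl]
  rw [← Finset.card_filter_add_card_filter_not (s := good f) (fun S => (0 : Fin (n + 1)) ∉ S)]
  refine Nat.add_le_add ?_ ?_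
  · refine Finset.card_le_card_of_injOn tl ?_ ?_
    · intro S hS
      simp only [Finset.coe_filter, Set.mem_ofPred_eq] at hS
      obtain ⟨hS, hS0⟩ := hS
      rw [mem_good] at hS
      rw [Finset.mem_coe, mem_good]
      intro e
      have h1 := hS e.succ
      have h2 : Set.InjOn (Fin.succ : Fin n → Fin (n + 1)) (↑(insert e (tl S)) : Set (Fin n)) :=
        (Fin.succ_injective n).injOn
      have h3 : LinearIndepOn ℝ (f ∘ Fin.succ) (↑(insert e (tl S)) : Set (Fin n)) := by
        refine LinearIndepOn.comp_of_image ?_ h2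
        refine h1.mono ?_
        rintro _ ⟨i, hi, rfl⟩
        rw [Finset.mem_coe, Finset.mem_insert] at hi ⊢
        rcases hi with rfl | hi
        · exact Or.inl rfl
        · exact Or.inr ((mem_tl S i).1 hi)
      exact h3
    · intro S hS T hT hST
      simp only [Finset.coe_filter, Set.mem_ofPred_eq] at hS hT
      ext i
      refine Fin.cases ?_ (fun i => ?_) i
      · simp [hS.2, hT.2]
      · rw [← mem_tl, ← mem_tl]
        have : tl S = tl T := hST
        rw [this]
  · refine Finset.card_le_card_of_injOn tl ?_ ?_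
    · intro S hS
      simp only [Finset.coe_filter, Set.mem_ofPred_eq, not_not] at hS
      obtain ⟨hS, hS0⟩ := hS
      rw [mem_good] at hS
      rw [Finset.mem_coe, mem_good]
      intro e
      have h1 := hS e.succ
      rw [linearIndepOn_finset_iff] at h1 ⊢
      intro g hg
      obtain ⟨w, hw⟩ : ∃ w, f 0 w ≠ 0 := by
        by_contra h
        push Not at h
        exact h0 (LinearMap.ext h)
      set v : V := (f 0 w)⁻¹ • w with hv
      have hv1 : f 0 v = 1 := by simp [hv, hw]
      set F : V →ₗ[ℝ] ℝ := ∑ i ∈ insert e (tl S), g i • f i.succ with hF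
      have hker : ∀ y, f 0 y = 0 → F y = 0 := by
        intro y hy
        have := congrArg (fun L => L ⟨y, LinearMap.mem_ker.2 hy⟩) hg
        simpa [hF, contr, LinearMap.sum_apply] using this
      have hFy : ∀ y, F y = F v * f 0 y := by
        intro y
        have := hker (y - f 0 y • v) (by simp [hv1])
        simp at this
        linarith
      have hset : insert e.succ S = insert 0 ((insert e (tl S)).map (Fin.succEmb n)) := by
        ext i
        refine Fin.cases ?_ (fun i => ?_) i
        · simp [hS0]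
        · simp [mem_tl, Fin.succ_inj, Fin.succ_ne_zero]
      have h2 := h1 (Fin.cons (-F v) g) (by
        rw [hset, Finset.sum_insert (by simp [(Fin.succ_ne_zero _).symm]), Finset.sum_map]
        simp only [Fin.cons_zero, Fin.coe_succEmb, Fin.cons_succ]
        rw [← hF]
        ext y
        simp only [LinearMap.add_apply, LinearMap.smul_apply, smul_eq_mul, LinearMap.zero_apply]
        rw [hFy y]
        ring)
      intro i hi
      have := h2 i.succ (by
        rw [hset]
        refine Finset.mem_insert_of_mem ?_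
        rw [Finset.mem_map]
        exact ⟨i, hi, rfl⟩)
      simpa using this
    · intro S hS T hT hST
      simp only [Finset.coe_filter, Set.mem_ofPred_eq, not_not] at hS hT
      ext i
      refine Fin.cases ?_ (fun i => ?_) i
      · simp [hS.2, hT.2]
      · rw [← mem_tl, ← mem_tl]
        have : tl S = tl T := hST
        rw [this]

end

theorem good_le_cells : ∀ (n : ℕ) (V : Type) [AddCommGroup V] [Module ℝ V]
    (f : Fin n → V →ₗ[ℝ] ℝ), (good f).card ≤ (cells f).card := by
  classical
  intro n
  induction n with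
  | zero =>
    intro V _ _ f
    have h1 : (good f).card ≤ 1 := by
      refine (Finset.card_le_univ _).trans ?_
      simp
    have h2 : cells f = univ := by
      ext σ
      rw [mem_cells]
      simp only [Finset.mem_univ, iff_true]
      exact ⟨0, fun i => i.elim0⟩
    rw [h2]
    simpa using h1
  | succ n ih =>
    intro V _ _ f
    by_cases h0 : f 0 = 0
    · have : good f = ∅ := by
        rw [Finset.eq_empty_iff_forall_notMem]
        intro S hS
        rw [mem_good] at hS
        have := (hS 0).ne_zero (i := 0) (by simp)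
        exact this h0
      rw [this]
      simp
    · exact (good_le f h0).trans ((Nat.add_le_add (ih V _) (ih _ _)).trans (lower_cells f h0))

/-- the number of cells of `n` functionals in general position in dimension `m` -/
def covN (n m : ℕ) : ℕ := if n = 0 then 1 else 2 * ∑ k ∈ range m, (n - 1).choose k

theorem covN_succ_succ (n m : ℕ) (hn : n ≠ 0) :
    covN (n + 1) (m + 1) = covN n (m + 1) + covN n m := by
  obtain ⟨k, rfl⟩ := Nat.exists_eq_succ_of_ne_zero hn
  simp only [covN, Nat.succ_ne_zero, if_false, Nat.add_sub_cancel, Nat.succ_eq_add_one]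
  rw [Finset.sum_range_succ' (fun j => (k + 1).choose j), Finset.sum_range_succ' (fun j => k.choose j)]
  simp only [Nat.choose_succ_succ, Finset.sum_add_distrib, Nat.choose_zero_right,
    Nat.succ_eq_add_one]
  ring

theorem cells_le_covN : ∀ (n : ℕ) (V : Type) [AddCommGroup V] [Module ℝ V] [FiniteDimensional ℝ V]
    (f : Fin n → V →ₗ[ℝ] ℝ), (cells f).card ≤ covN n (finrank ℝ V) := by
  classical
  intro n
  induction n with
  | zero =>
    intro V _ _ _ f
    refine (Finset.card_le_univ _).trans ?_
    simp [covN]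
  | succ n ih =>
    intro V _ _ _ f
    by_cases h0 : f 0 = 0
    · have : cells f = ∅ := by
        rw [Finset.eq_empty_iff_forall_notMem]
        intro σ hσ
        rw [mem_cells] at hσ
        obtain ⟨y, hy⟩ := hσ
        have := hy 0
        rw [h0] at this
        simp at this
      rw [this]
      simp
    · have hfr : finrank ℝ (LinearMap.ker (f 0)) + 1 = finrank ℝ V := by
        have h1 := LinearMap.finrank_range_add_finrank_ker (f 0)
        have h2 : LinearMap.range (f 0) = ⊤ := LinearMap.range_eq_top.2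
          (LinearMap.surjective (f := f 0) h0)
        rw [h2, finrank_top, finrank_self] at h1
        omega
      rcases Nat.eq_zero_or_pos n with rfl | hn
      · refine (Finset.card_le_univ _).trans ?_
        rw [← hfr]
        simp only [covN, Fintype.card_pi, Fintype.card_bool]
        rw [Finset.sum_range_succ']
        simp
      · refine (upper_cells f).trans ((Nat.add_le_add (ih V _) (ih _ (contr f))).trans ?_)
        rw [← hfr, covN_succ_succ _ _ (by omega)]

end Pool.Agent.Helper93K9.Wendel
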