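import Mathlib

/-!
# A random row with independent symmetric entries and a fixed subspace
-/

set_option autoImplicit false
set_option linter.unusedSectionVars false

namespace Pool.Agent.Helper93K9.Wendel

open MeasureTheory Finset Module ENNReal

variable {ι : Type} [Fintype ι] [DecidableEq ι]

/-- support of a vector -/
noncomputable def sup0 (r : ι → ℝ) : Finset ι := by
  classical exact univ.filter fun i => r i ≠ 0

theorem mem_sup0 {r : ι → ℝ} {i : ι} : i ∈ sup0 r ↔ r i ≠ 0 := by
  classical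
  simp [sup0]

/-- the functional `u ↦ ∑ r i * u i` -/
noncomputable def dotL (r : ι → ℝ) : (ι → ℝ) →ₗ[ℝ] ℝ := ∑ i, r i • LinearMap.proj i

theorem dotL_apply (r u : ι → ℝ) : dotL r u = ∑ i, r i * u i := by
  simp [dotL, LinearMap.sum_apply]

/-- vectors of `U` which vanish on `T` -/
noncomputable def van (T : Finset ι) (U : Submodule ℝ (ι → ℝ)) : Submodule ℝ (ι → ℝ) :=
  U ⊓ ⨅ i ∈ T, LinearMap.ker (LinearMap.proj i : (ι → ℝ) →ₗ[ℝ] ℝ)

theorem mem_van {T : Finset ι} {U : Submodule ℝ (ι → ℝ)} {u : ι → ℝ} :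
    u ∈ van T U ↔ u ∈ U ∧ ∀ i ∈ T, u i = 0 := by
  simp [van, Submodule.mem_iInf]

theorem van_empty (U : Submodule ℝ (ι → ℝ)) : van ∅ U = U := by
  ext u; simp [mem_van]

theorem van_insert (i : ι) (T : Finset ι) (U : Submodule ℝ (ι → ℝ)) :
    van (insert i T) U = van T U ⊓ LinearMap.ker (LinearMap.proj i : (ι → ℝ) →ₗ[ℝ] ℝ) := by
  ext u
  simp only [mem_van, Submodule.mem_inf, LinearMap.mem_ker, LinearMap.proj_apply, Finset.mem_insert]
  constructor
  · rintro ⟨h1, h2⟩
    exact ⟨⟨h1, fun j hj => h2 j (Or.inr hj)⟩, h2 i (Or.inl rfl)⟩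
  · rintro ⟨⟨h1, h2⟩, h3⟩
    refine ⟨h1, ?_⟩
    rintro j (rfl | hj)
    · exact h3
    · exact h2 j hj

/-- a functional which does not vanish on `U` cuts the dimension by one -/
theorem finrank_inf_ker (U : Submodule ℝ (ι → ℝ)) (φ : (ι → ℝ) →ₗ[ℝ] ℝ)
    (h : ∃ u ∈ U, φ u ≠ 0) :
    finrank ℝ ↥(U ⊓ LinearMap.ker φ) + 1 = finrank ℝ U := by
  obtain ⟨u, hu, hφ⟩ := h
  have h1 := LinearMap.finrank_range_add_finrank_ker (φ.comp U.subtype)
  have h2 : φ.comp U.subtype ≠ 0 := by
    intro h0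
    have := congrArg (fun L => L ⟨u, hu⟩) h0
    simp at this
    exact hφ this
  rw [LinearMap.range_eq_top.2 (LinearMap.surjective h2), finrank_top, finrank_self] at h1
  have h3 : finrank ℝ ↥(LinearMap.ker (φ.comp U.subtype)) = finrank ℝ ↥(U ⊓ LinearMap.ker φ) := by
    have e : (LinearMap.ker (φ.comp U.subtype)).map U.subtype = U ⊓ LinearMap.ker φ := by
      rw [LinearMap.ker_comp, Submodule.map_comap_subtype]
    rw [← e]
    exact (LinearEquiv.finrank_eq (Submodule.equivMapOfInjective U.subtype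
      (Submodule.subtype_injective U) _))
  omega

theorem inf_ker_of_forall (U : Submodule ℝ (ι → ℝ)) (φ : (ι → ℝ) →ₗ[ℝ] ℝ)
    (h : ∀ u ∈ U, φ u = 0) : U ⊓ LinearMap.ker φ = U := by
  refine inf_eq_left.2 fun u hu => ?_
  exact LinearMap.mem_ker.2 (h u hu)

/-- rows orthogonal to `U` -/
def perp (U : Submodule ℝ (ι → ℝ)) : Set (ι → ℝ) := {r | ∀ u ∈ U, dotL r u = 0}

theorem measurableSet_perp (U : Submodule ℝ (ι → ℝ)) : MeasurableSet (perp U) := by
  have : perp U = ⋂ u : U, {r : ι → ℝ | dotL r u = 0} := by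
    ext r
    simp [perp]
  rw [this]
  refine (isClosed_iInter fun u => ?_).measurableSet
  simp only [dotL_apply]
  exact isClosed_eq (by fun_prop) continuous_const

theorem measurableSet_sup0 (T : Finset ι) : MeasurableSet {r : ι → ℝ | sup0 r = T} := by
  have : {r : ι → ℝ | sup0 r = T} = ⋂ i, {r : ι → ℝ | r i ≠ 0 ↔ i ∈ T} := by
    ext r
    simp only [Set.mem_ofPred_eq, Set.mem_iInter]
    constructor
    · intro h i
      rw [← h, mem_sup0]
    · intro h
      ext i
      rw [mem_sup0, h i]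
  rw [this]
  refine MeasurableSet.iInter fun i => ?_
  by_cases hi : i ∈ T
  · simp only [hi, iff_true]
    exact (measurableSet_eq_fun (measurable_pi_apply i) measurable_const).compl
  · simp only [hi, iff_false, not_not]
    exact measurableSet_eq_fun (measurable_pi_apply i) measurable_const

/-- change of the sign of one entry -/
def flp (i : ι) (r : ι → ℝ) : ι → ℝ := fun j => if j = i then -r j else r j

variable {μ0 : Measure ℝ} [IsProbabilityMeasure μ0]

theorem flp_mp (hs : MeasurePreserving (Neg.neg : ℝ → ℝ) μ0 μ0) (i : ι) :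
    MeasurePreserving (flp i) (Measure.pi fun _ : ι => μ0) (Measure.pi fun _ : ι => μ0) := by
  have := measurePreserving_pi (fun _ : ι => μ0) (fun _ : ι => μ0)
    (f := fun j x => if j = i then -x else x) (fun j => by
      by_cases h : j = i
      · simp only [h, if_true]
        exact hs
      · simp only [h, if_false]
        exact MeasurePreserving.id μ0)
  exact this

theorem sup0_flp (i : ι) (r : ι → ℝ) : sup0 (flp i r) = sup0 r := by
  ext j
  rw [mem_sup0, mem_sup0]
  unfold flp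
  by_cases h : j = i <;> simp [h]

theorem dotL_flp (i : ι) (r u : ι → ℝ) : dotL (flp i r) u = dotL r u - 2 * (r i * u i) := by
  rw [dotL_apply, dotL_apply]
  have : ∀ j, flp i r j * u j = r j * u j - (if j = i then 2 * (r i * u i) else 0) := by
    intro j
    unfold flp
    by_cases h : j = i
    · subst h; simp; ring
    · simp [h]
  simp only [this, Finset.sum_sub_distrib, Finset.sum_ite_eq', Finset.mem_univ, if_true]

theorem two_mul_le (hs : MeasurePreserving (Neg.neg : ℝ → ℝ) μ0 μ0)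
    (U : Submodule ℝ (ι → ℝ)) (T : Finset ι) (i : ι) (hi : i ∈ T)
    (hu : ∃ u ∈ U, u i ≠ 0) :
    2 * (Measure.pi fun _ : ι => μ0) (perp U ∩ {r | sup0 r = T}) ≤
      (Measure.pi fun _ : ι => μ0)
        (perp (U ⊓ LinearMap.ker (LinearMap.proj i : (ι → ℝ) →ₗ[ℝ] ℝ)) ∩ {r | sup0 r = T}) := by
  set μ := (Measure.pi fun _ : ι => μ0)
  set E := perp U ∩ {r | sup0 r = T} with hE
  have hEm : MeasurableSet E := (measurableSet_perp U).inter (measurableSet_sup0 T)
  have h1 : μ (flp i ⁻¹' E) = μ E := (flp_mp hs i).measure_preimage hEm.nullMeasurableSet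
  have hdis : Disjoint E (flp i ⁻¹' E) := by
    rw [Set.disjoint_left]
    rintro r ⟨hr1, hr2⟩ ⟨hr3, -⟩
    obtain ⟨u, hu, hui⟩ := hu
    have a := hr1 u hu
    have b := hr3 u hu
    rw [dotL_flp, a] at b
    have hri : r i ≠ 0 := by
      rw [← mem_sup0]
      have : sup0 r = T := hr2
      rw [this]
      exact hi
    have : r i * u i = 0 := by linarith
    rcases mul_eq_zero.1 this with h | h
    · exact hri h
    · exact hui h
  have h2 : μ (E ∪ flp i ⁻¹' E) = μ E + μ (flp i ⁻¹' E) :=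
    measure_union hdis ((flp_mp hs i).measurable hEm)
  rw [two_mul]
  nth_rewrite 2 [← h1]
  rw [← h2]
  refine measure_mono ?_
  rintro r (⟨hr1, hr2⟩ | ⟨hr1, hr2⟩)
  · exact ⟨fun u hu => hr1 u hu.1, hr2⟩
  · refine ⟨fun u hu => ?_, ?_⟩
    · have := hr1 u hu.1
      rw [dotL_flp] at this
      have h3 : u i = 0 := by simpa using hu.2
      rw [h3] at this
      simpa using this
    · have : sup0 (flp i r) = T := hr2
      rwa [sup0_flp] at this

theorem row_aux (hs : MeasurePreserving (Neg.neg : ℝ → ℝ) μ0 μ0)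
    (U : Submodule ℝ (ι → ℝ)) (T T1 : Finset ι) (hT : T1 ⊆ T) :
    (2 : ℝ≥0∞) ^ finrank ℝ U * (Measure.pi fun _ : ι => μ0) (perp U ∩ {r | sup0 r = T}) ≤
      2 ^ finrank ℝ (van T1 U) *
        (Measure.pi fun _ : ι => μ0) (perp (van T1 U) ∩ {r | sup0 r = T}) := by
  induction T1 using Finset.induction_on with
  | empty => rw [van_empty]
  | insert i T1 hi ih =>
    refine (ih ((Finset.subset_insert i T1).trans hT)).trans ?_
    rw [van_insert]
    by_cases h : ∃ u ∈ van T1 U, u i ≠ 0
    · have h1 := finrank_inf_ker (van T1 U) (LinearMap.proj i) h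
      rw [← h1, pow_succ, mul_assoc]
      exact mul_le_mul_right (two_mul_le hs (van T1 U) T i (hT (Finset.mem_insert_self i T1)) h) _
    · push Not at h
      rw [inf_ker_of_forall _ _ h]

theorem row_bound (hs : MeasurePreserving (Neg.neg : ℝ → ℝ) μ0 μ0)
    (U : Submodule ℝ (ι → ℝ)) (T : Finset ι) :
    (2 : ℝ≥0∞) ^ finrank ℝ U * (Measure.pi fun _ : ι => μ0) (perp U ∩ {r | sup0 r = T}) ≤
      2 ^ finrank ℝ (van T U) * (Measure.pi fun _ : ι => μ0) {r | sup0 r = T} :=
  (row_aux hs U T T subset_rfl).trans (mul_le_mul_right (measure_mono Set.inter_subset_right) _)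

/-- decomposition of a measure along the support -/
theorem measure_eq_sum (E : Set (ι → ℝ)) (hE : MeasurableSet E) :
    (Measure.pi fun _ : ι => μ0) E =
      ∑ T : Finset ι, (Measure.pi fun _ : ι => μ0) (E ∩ {r | sup0 r = T}) := by
  rw [← measure_biUnion_finset]
  · congr 1
    ext r
    simp
  · intro T _ T' _ hne
    rw [Function.onFun, Set.disjoint_left]
    rintro r ⟨-, h1⟩ ⟨-, h2⟩
    exact hne (h1.symm.trans h2)
  · intro T _
    exact hE.inter (measurableSet_sup0 T)

theorem lint_row (hs : MeasurePreserving (Neg.neg : ℝ → ℝ) μ0 μ0)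
    (U : Submodule ℝ (ι → ℝ)) :
    ∫⁻ r, (2 : ℝ≥0∞) * 2 ^ finrank ℝ ↥(U ⊓ LinearMap.ker (dotL r))
        ∂(Measure.pi fun _ : ι => μ0) =
      2 ^ finrank ℝ U * (1 + (Measure.pi fun _ : ι => μ0) (perp U)) := by
  have h1 : ∀ r : ι → ℝ, (2 : ℝ≥0∞) * 2 ^ finrank ℝ ↥(U ⊓ LinearMap.ker (dotL r)) =
      2 ^ finrank ℝ U * (1 + (perp U).indicator 1 r) := by
    intro r
    by_cases h : r ∈ perp U
    · rw [inf_ker_of_forall U _ h]
      simp only [Set.indicator_of_mem h, Pi.one_apply]
      rw [mul_comm]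
      norm_num
    · have h' : ∃ u ∈ U, dotL r u ≠ 0 := by
        by_contra hc
        push Not at hc
        exact h hc
      rw [← finrank_inf_ker U _ h']
      simp only [Set.indicator_of_notMem h, add_zero, mul_one]
      rw [pow_succ, mul_comm]
  simp_rw [h1]
  rw [lintegral_const_mul' _ _ (by finiteness)]
  rw [lintegral_add_left measurable_const]
  rw [lintegral_indicator_one (measurableSet_perp U)]
  simp

theorem lint_row_le (hs : MeasurePreserving (Neg.neg : ℝ → ℝ) μ0 μ0)
    (U : Submodule ℝ (ι → ℝ)) :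
    ∫⁻ r, (2 : ℝ≥0∞) * 2 ^ finrank ℝ ↥(U ⊓ LinearMap.ker (dotL r))
        ∂(Measure.pi fun _ : ι => μ0) ≤
      2 ^ finrank ℝ U + ∑ T : Finset ι, 2 ^ finrank ℝ (van T U) *
        (Measure.pi fun _ : ι => μ0) {r | sup0 r = T} := by
  rw [lint_row hs U, mul_add, mul_one]
  gcongr
  rw [measure_eq_sum _ (measurableSet_perp U), Finset.mul_sum]
  exact Finset.sum_le_sum fun T _ => row_bound hs U T

theorem measure_zero_on (B : Finset ι) :
    (Measure.pi fun _ : ι => μ0) {r | ∀ i ∈ B, r i = 0} = (μ0 {0}) ^ B.card := by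
  have h : {r : ι → ℝ | ∀ i ∈ B, r i = 0} =
      Set.univ.pi (fun i => if i ∈ B then ({0} : Set ℝ) else Set.univ) := by
    ext r
    simp only [Set.mem_ofPred_eq, Set.mem_pi, Set.mem_univ, true_implies]
    refine forall_congr' fun i => ?_
    by_cases hi : i ∈ B <;> simp [hi]
  rw [h, Measure.pi_pi]
  have : ∀ i : ι, μ0 (if i ∈ B then ({0} : Set ℝ) else Set.univ) = if i ∈ B then μ0 {0} else 1 := by
    intro i
    by_cases hi : i ∈ B <;> simp [hi]
  simp only [this]
  rw [Finset.prod_ite_mem]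
  simp

/-- probability that the support avoids `B` -/
theorem sum_disjoint (B : Finset ι) :
    ∑ T : Finset ι, (if Disjoint T B then
      (Measure.pi fun _ : ι => μ0) {r | sup0 r = T} else 0) = (μ0 {0}) ^ B.card := by
  rw [← measure_zero_on (μ0 := μ0) B]
  have hm : MeasurableSet {r : ι → ℝ | ∀ i ∈ B, r i = 0} := by
    have : {r : ι → ℝ | ∀ i ∈ B, r i = 0} = ⋂ i ∈ B, {r : ι → ℝ | r i = 0} := by
      ext r; simp
    rw [this]
    exact Finset.measurableSet_biInter B fun i _ =>
      measurableSet_eq_fun (measurable_pi_apply i) measurable_const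
  rw [measure_eq_sum _ hm]
  refine Finset.sum_congr rfl fun T _ => ?_
  by_cases h : Disjoint T B
  · rw [if_pos h]
    congr 1
    ext r
    simp only [Set.mem_inter_iff, Set.mem_ofPred_eq]
    constructor
    · intro hr
      refine ⟨fun i hi => ?_, hr⟩
      by_contra hne
      have : i ∈ T := by rw [← hr, mem_sup0]; exact hne
      exact (Finset.disjoint_left.1 h this) hi
    · exact fun hr => hr.2
  · rw [if_neg h]
    symm
    have : {r : ι → ℝ | ∀ i ∈ B, r i = 0} ∩ {r | sup0 r = T} = ∅ := by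
      rw [Set.eq_empty_iff_forall_notMem]
      rintro r ⟨h1, h2⟩
      rw [Finset.not_disjoint_iff] at h
      obtain ⟨i, hi, hiB⟩ := h
      have h3 : sup0 r = T := h2
      rw [← h3, mem_sup0] at hi
      exact hi (h1 i hiB)
    rw [this]
    simp

/-- a single vector with many nonzero entries is rarely orthogonal to the row -/
theorem perp_le (hs : MeasurePreserving (Neg.neg : ℝ → ℝ) μ0 μ0)
    (U : Submodule ℝ (ι → ℝ)) (u : ι → ℝ) (hu : u ∈ U) :
    2 * (Measure.pi fun _ : ι => μ0) (perp U) ≤ 1 + (μ0 {0}) ^ (sup0 u).card := by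
  rw [measure_eq_sum _ (measurableSet_perp U), Finset.mul_sum]
  have hsum1 : ∑ T : Finset ι, (Measure.pi fun _ : ι => μ0) {r | sup0 r = T} = 1 := by
    have := measure_eq_sum (μ0 := μ0) (Set.univ : Set (ι → ℝ)) MeasurableSet.univ
    simp only [measure_univ, Set.univ_inter] at this
    exact this.symm
  rw [← sum_disjoint (μ0 := μ0) (sup0 u), ← hsum1, ← Finset.sum_add_distrib]
  refine Finset.sum_le_sum fun T _ => ?_
  by_cases h : Disjoint T (sup0 u)
  · rw [if_pos h, two_mul]
    gcongr <;> exact Set.inter_subset_right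
  · rw [if_neg h, add_zero]
    rw [Finset.not_disjoint_iff] at h
    obtain ⟨i, hiT, hiu⟩ := h
    exact (two_mul_le hs U T i hiT ⟨u, hu, mem_sup0.1 hiu⟩).trans
      (measure_mono Set.inter_subset_right)

end Pool.Agent.Helper93K9.Wendel
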