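import Mathlib
import Pool.Agent.Helper93K9.Wendel.Row

/-!
# The nullity of a random matrix with independent symmetric entries
-/

set_option autoImplicit false
set_option linter.unusedSectionVars false

namespace Pool.Agent.Helper93K9.Wendel

open MeasureTheory Finset Module ENNReal

variable {ι : Type} [Fintype ι] [DecidableEq ι]

/-- kernel of a matrix, given by its rows -/
noncomputable def ker0 {j : ℕ} (M : Fin j → ι → ℝ) : Submodule ℝ (ι → ℝ) :=
  ⨅ k, LinearMap.ker (dotL (M k))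

theorem mem_ker0 {j : ℕ} {M : Fin j → ι → ℝ} {u : ι → ℝ} : u ∈ ker0 M ↔ ∀ k, dotL (M k) u = 0 := by
  simp [ker0, Submodule.mem_iInf]

/-- vectors of the kernel with support in `A` -/
noncomputable def Lk {j : ℕ} (M : Fin j → ι → ℝ) (A : Finset ι) : Submodule ℝ (ι → ℝ) :=
  van Aᶜ (ker0 M)

theorem mem_Lk {j : ℕ} {M : Fin j → ι → ℝ} {A : Finset ι} {u : ι → ℝ} :
    u ∈ Lk M A ↔ (∀ k, dotL (M k) u = 0) ∧ ∀ i, i ∉ A → u i = 0 := by
  simp [Lk, mem_van, mem_ker0]

theorem van_Lk {j : ℕ} (M : Fin j → ι → ℝ) (A T : Finset ι) : van T (Lk M A) = Lk M (A \ T) := by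
  ext u
  rw [mem_van, mem_Lk, mem_Lk]
  constructor
  · rintro ⟨⟨h1, h2⟩, h3⟩
    refine ⟨h1, fun i hi => ?_⟩
    by_cases hA : i ∈ A
    · by_cases hT : i ∈ T
      · exact h3 i hT
      · exact absurd (Finset.mem_sdiff.2 ⟨hA, hT⟩) hi
    · exact h2 i hA
  · rintro ⟨h1, h2⟩
    refine ⟨⟨h1, fun i hi => h2 i fun h => hi (Finset.mem_sdiff.1 h).1⟩, fun i hi => ?_⟩
    exact h2 i fun h => (Finset.mem_sdiff.1 h).2 hi

theorem Lk_snoc {j : ℕ} (M : Fin j → ι → ℝ) (r : ι → ℝ) (A : Finset ι) :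
    Lk (Fin.snoc M r : Fin (j + 1) → ι → ℝ) A = Lk M A ⊓ LinearMap.ker (dotL r) := by
  ext u
  rw [Submodule.mem_inf, mem_Lk, mem_Lk, LinearMap.mem_ker]
  constructor
  · rintro ⟨h1, h2⟩
    refine ⟨⟨fun k => ?_, h2⟩, ?_⟩
    · simpa using h1 k.castSucc
    · simpa using h1 (Fin.last j)
  · rintro ⟨⟨h1, h2⟩, h3⟩
    refine ⟨fun k => ?_, h2⟩
    refine Fin.lastCases ?_ (fun k => ?_) k
    · simpa using h3
    · simpa using h1 k

theorem finrank_Lk_le {j : ℕ} (M : Fin j → ι → ℝ) (A : Finset ι) :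
    finrank ℝ (Lk M A) ≤ A.card := by
  let φ : Lk M A →ₗ[ℝ] (A → ℝ) := (LinearMap.funLeft ℝ ℝ (fun i : A => (i : ι))).comp (Lk M A).subtype
  have hφ : Function.Injective φ := by
    intro u v huv
    apply Subtype.ext
    funext i
    by_cases hi : i ∈ A
    · exact congrFun huv ⟨i, hi⟩
    · rw [(mem_Lk.1 u.2).2 i hi, (mem_Lk.1 v.2).2 i hi]
  have := LinearMap.finrank_le_finrank_of_injective hφ
  simpa using this

/-- the linear map whose kernel is `Lk M A` -/
noncomputable def PhiL {j : ℕ} (A : Finset ι) (M : Fin j → ι → ℝ) :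
    (ι → ℝ) →ₗ[ℝ] (Fin j ⊕ ι → ℝ) :=
  LinearMap.pi (Sum.elim (fun k => dotL (M k)) (fun i => if i ∈ A then 0 else LinearMap.proj i))

theorem ker_PhiL {j : ℕ} (A : Finset ι) (M : Fin j → ι → ℝ) :
    LinearMap.ker (PhiL A M) = Lk M A := by
  ext u
  rw [LinearMap.mem_ker, mem_Lk]
  constructor
  · intro h
    refine ⟨fun k => ?_, fun i hi => ?_⟩
    · simpa [PhiL] using congrFun h (Sum.inl k)
    · simpa [PhiL, hi] using congrFun h (Sum.inr i)
  · rintro ⟨h1, h2⟩
    funext s
    rcases s with k | i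
    · simpa [PhiL] using h1 k
    · by_cases hi : i ∈ A
      · simp [PhiL, hi]
      · simpa [PhiL, hi] using h2 i hi

/-- the same as a continuous linear map -/
noncomputable def Phi {j : ℕ} (A : Finset ι) (M : Fin j → ι → ℝ) :
    (ι → ℝ) →L[ℝ] (Fin j ⊕ ι → ℝ) := LinearMap.toContinuousLinearMap (PhiL A M)

theorem continuous_Phi {j : ℕ} (A : Finset ι) :
    Continuous (Phi A : (Fin j → ι → ℝ) → ((ι → ℝ) →L[ℝ] (Fin j ⊕ ι → ℝ))) := by
  rw [continuous_clm_apply]
  intro y
  refine continuous_pi fun s => ?_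
  rcases s with k | i
  · simp only [Phi, PhiL, LinearMap.coe_toContinuousLinearMap', LinearMap.pi_apply, Sum.elim_inl,
      dotL_apply]
    fun_prop
  · by_cases hi : i ∈ A
    · simp only [Phi, PhiL, LinearMap.coe_toContinuousLinearMap', LinearMap.pi_apply, Sum.elim_inr,
        hi, if_true, LinearMap.zero_apply]
      fun_prop
    · simp only [Phi, PhiL, LinearMap.coe_toContinuousLinearMap', LinearMap.pi_apply, Sum.elim_inr,
        hi, if_false, LinearMap.proj_apply]
      fun_prop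

theorem measurable_finrank_Lk {j : ℕ} (A : Finset ι) :
    Measurable fun M : Fin j → ι → ℝ => finrank ℝ (Lk M A) := by
  have h1 : Measurable fun M : Fin j → ι → ℝ => finrank ℝ (LinearMap.range (PhiL A M)) := by
    refine measurable_of_Ici fun n => ?_
    have : (fun M : Fin j → ι → ℝ => finrank ℝ (LinearMap.range (PhiL A M))) ⁻¹' Set.Ici n =
        Phi A ⁻¹' {f : (ι → ℝ) →L[ℝ] (Fin j ⊕ ι → ℝ) |
          (n : Cardinal) ≤ (f : (ι → ℝ) →ₗ[ℝ] (Fin j ⊕ ι → ℝ)).rank} := by
      ext M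
      simp only [Set.mem_preimage, Set.mem_Ici, Set.mem_ofPred_eq]
      have h : ((Phi A M : (ι → ℝ) →L[ℝ] (Fin j ⊕ ι → ℝ)) : (ι → ℝ) →ₗ[ℝ] (Fin j ⊕ ι → ℝ)) =
          PhiL A M := by
        ext; rfl
      rw [h, LinearMap.rank, ← finrank_eq_rank]
      exact Nat.cast_le.symm
    rw [this]
    exact ((isOpen_setOfPred_nat_le_rank n).preimage (continuous_Phi A)).measurableSet
  have h2 : (fun M : Fin j → ι → ℝ => finrank ℝ (Lk M A)) =
      fun M => Fintype.card ι - finrank ℝ (LinearMap.range (PhiL A M)) := by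
    funext M
    have := LinearMap.finrank_range_add_finrank_ker (PhiL A M)
    rw [ker_PhiL, finrank_fintype_fun_eq_card] at this
    omega
  rw [h2]
  exact measurable_const.sub h1

/-- law of a random matrix with `j` rows -/
noncomputable def matM (μ0 : Measure ℝ) (ι : Type) [Fintype ι] (j : ℕ) : Measure (Fin j → ι → ℝ) :=
  Measure.pi fun _ : Fin j => Measure.pi fun _ : ι => μ0

variable {μ0 : Measure ℝ} [IsProbabilityMeasure μ0]

instance (j : ℕ) : IsProbabilityMeasure (matM μ0 ι j) := by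
  unfold matM; infer_instance

theorem lint_succ {j : ℕ} (F : (Fin (j + 1) → ι → ℝ) → ℝ≥0∞) (hF : Measurable F) :
    ∫⁻ M, F M ∂(matM μ0 ι (j + 1)) =
      ∫⁻ M, ∫⁻ r, F (Fin.snoc M r) ∂(Measure.pi fun _ : ι => μ0) ∂(matM μ0 ι j) := by
  have mp := measurePreserving_piFinSuccAbove
    (fun _ : Fin (j + 1) => (Measure.pi fun _ : ι => μ0)) (Fin.last j)
  have h1 := (mp.symm).lintegral_comp hF
  unfold matM
  rw [← h1]
  rw [lintegral_prod_symm]
  · refine lintegral_congr fun M => lintegral_congr fun r => ?_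
    congr 1
    have : (MeasurableEquiv.piFinSuccAbove (fun _ : Fin (j + 1) => ι → ℝ) (Fin.last j)).symm (r, M) =
        Fin.insertNth (α := fun _ => ι → ℝ) (Fin.last j) r M := rfl
    rw [this, Fin.insertNth_last']
  · exact (hF.comp (MeasurableEquiv.measurable _)).aemeasurable

/-- the potential -/
noncomputable def pot {j : ℕ} (A : Finset ι) (M : Fin j → ι → ℝ) : ℝ≥0∞ := 2 ^ finrank ℝ (Lk M A)

theorem measurable_pot {j : ℕ} (A : Finset ι) :
    Measurable (pot A : (Fin j → ι → ℝ) → ℝ≥0∞) := by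
  have : (pot A : (Fin j → ι → ℝ) → ℝ≥0∞) = (fun n : ℕ => (2 : ℝ≥0∞) ^ n) ∘
      fun M => finrank ℝ (Lk M A) := rfl
  rw [this]
  exact (measurable_of_countable _).comp (measurable_finrank_Lk A)

theorem pot_snoc {j : ℕ} (A : Finset ι) (M : Fin j → ι → ℝ) (r : ι → ℝ) :
    pot A (Fin.snoc M r : Fin (j + 1) → ι → ℝ) =
      2 ^ finrank ℝ ↥(Lk M A ⊓ LinearMap.ker (dotL r)) := by
  unfold pot
  rw [Lk_snoc]

theorem pot_sdiff {j : ℕ} (A T : Finset ι) (M : Fin j → ι → ℝ) :
    pot (A \ T) M = 2 ^ finrank ℝ (van T (Lk M A)) := by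
  unfold pot
  rw [van_Lk]

theorem pot_bound (hs : MeasurePreserving (Neg.neg : ℝ → ℝ) μ0 μ0) (j : ℕ) :
    ∀ A : Finset ι, 2 ^ j * ∫⁻ M, pot A M ∂(matM μ0 ι j) ≤
      ∑ B ∈ A.powerset, (1 + (μ0 {0}) ^ B.card) ^ j := by
  induction j with
  | zero =>
    intro A
    simp only [pow_zero, one_mul, Finset.sum_const, Finset.card_powerset, nsmul_eq_mul, mul_one]
    calc ∫⁻ M, pot A M ∂(matM μ0 ι 0) ≤ ∫⁻ _M, (2 : ℝ≥0∞) ^ A.card ∂(matM μ0 ι 0) := by
          refine lintegral_mono fun M => ?_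
          exact pow_le_pow_right₀ (by norm_num) (finrank_Lk_le M A)
      _ = _ := by simp
  | succ j ih =>
    intro A
    rw [lint_succ _ (measurable_pot A)]
    have h1 : ∀ M : Fin j → ι → ℝ,
        2 * ∫⁻ r, pot A (Fin.snoc M r : Fin (j + 1) → ι → ℝ) ∂(Measure.pi fun _ : ι => μ0) ≤
          pot A M + ∑ T : Finset ι, pot (A \ T) M *
            (Measure.pi fun _ : ι => μ0) {r | sup0 r = T} := by
      intro M
      have := lint_row_le hs (Lk M A)
      rw [lintegral_const_mul' _ _ (by finiteness)] at this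
      simp only [pot_snoc, pot_sdiff]
      exact this
    calc 2 ^ (j + 1) * ∫⁻ M, ∫⁻ r, pot A (Fin.snoc M r : Fin (j + 1) → ι → ℝ)
            ∂(Measure.pi fun _ : ι => μ0) ∂(matM μ0 ι j)
        = 2 ^ j * ∫⁻ M, 2 * ∫⁻ r, pot A (Fin.snoc M r : Fin (j + 1) → ι → ℝ)
            ∂(Measure.pi fun _ : ι => μ0) ∂(matM μ0 ι j) := by
          rw [lintegral_const_mul' _ _ (by finiteness), pow_succ, mul_assoc]
      _ ≤ 2 ^ j * ∫⁻ M, (pot A M + ∑ T : Finset ι, pot (A \ T) M *
            (Measure.pi fun _ : ι => μ0) {r | sup0 r = T}) ∂(matM μ0 ι j) := by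
          gcongr with M
          exact h1 M
      _ = 2 ^ j * ∫⁻ M, pot A M ∂(matM μ0 ι j) + ∑ T : Finset ι,
            (2 ^ j * ∫⁻ M, pot (A \ T) M ∂(matM μ0 ι j)) *
            (Measure.pi fun _ : ι => μ0) {r | sup0 r = T} := by
          rw [lintegral_add_left (measurable_pot A), lintegral_finsetSum _
            (fun T _ => (measurable_pot (A \ T)).mul_const _), mul_add, Finset.mul_sum]
          congr 1
          refine Finset.sum_congr rfl fun T _ => ?_
          rw [lintegral_mul_const _ (measurable_pot _), mul_assoc]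
      _ ≤ ∑ B ∈ A.powerset, (1 + (μ0 {0}) ^ B.card) ^ j + ∑ T : Finset ι,
            (∑ B ∈ (A \ T).powerset, (1 + (μ0 {0}) ^ B.card) ^ j) *
            (Measure.pi fun _ : ι => μ0) {r | sup0 r = T} := by
          gcongr with T
          · exact ih A
          · exact ih (A \ T)
      _ = ∑ B ∈ A.powerset, (1 + (μ0 {0}) ^ B.card) ^ (j + 1) := by
          have h2 : ∀ T : Finset ι, (∑ B ∈ (A \ T).powerset, (1 + (μ0 {0}) ^ B.card) ^ j) *
              (Measure.pi fun _ : ι => μ0) {r | sup0 r = T} =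
              ∑ B ∈ A.powerset, (1 + (μ0 {0}) ^ B.card) ^ j * (if Disjoint T B then
                (Measure.pi fun _ : ι => μ0) {r | sup0 r = T} else 0) := by
            intro T
            rw [Finset.sum_mul]
            have h3 : (A \ T).powerset = A.powerset.filter fun B => Disjoint T B := by
              ext B
              simp only [Finset.mem_powerset, Finset.mem_filter, Finset.subset_sdiff]
              constructor
              · rintro ⟨h, h'⟩; exact ⟨h, h'.symm⟩
              · rintro ⟨h, h'⟩; exact ⟨h, h'.symm⟩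
            rw [h3, Finset.sum_filter]
            refine Finset.sum_congr rfl fun B _ => ?_
            by_cases h : Disjoint T B <;> simp [h]
          simp_rw [h2]
          rw [Finset.sum_comm, ← Finset.sum_add_distrib]
          refine Finset.sum_congr rfl fun B _ => ?_
          rw [← Finset.mul_sum, sum_disjoint]
          ring

end Pool.Agent.Helper93K9.Wendel
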