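import Mathlib
import Pool.Agent.Helper93K9.Wendel.Pot

/-!
# The last rows remove the rest of the kernel
-/

set_option autoImplicit false
set_option linter.unusedSectionVars false

namespace Pool.Agent.Helper93K9.Wendel

open MeasureTheory Finset Module ENNReal

variable {ι : Type} [Fintype ι] [DecidableEq ι]

/-- the first `D` rows -/
def hd {D m : ℕ} (M : Fin (D + m) → ι → ℝ) : Fin D → ι → ℝ := fun k => M (Fin.castAdd m k)

theorem hd_snoc {D m : ℕ} (M : Fin (D + m) → ι → ℝ) (r : ι → ℝ) :
    hd (m := m + 1) (Fin.snoc M r : Fin (D + m + 1) → ι → ℝ) = hd M := by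
  funext k
  have : (Fin.castAdd (m + 1) k : Fin (D + (m + 1))) = (Fin.castAdd m k).castSucc := rfl
  unfold hd
  rw [this]
  exact Fin.snoc_castSucc (α := fun _ => ι → ℝ) r M (Fin.castAdd m k)

theorem hd_zero {D : ℕ} (M : Fin (D + 0) → ι → ℝ) : hd M = M := rfl

/-- exactly one entry of the row with index in `C` is not zero -/
def one1 (C : Finset ι) (r : ι → ℝ) : Prop := ∃ i ∈ C, r i ≠ 0 ∧ ∀ i' ∈ C, i' ≠ i → r i' = 0

/-- each small nonempty set of columns has a row with exactly one nonzero entry -/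
def Good (K : ℕ) {D : ℕ} (M : Fin D → ι → ℝ) : Prop :=
  ∀ C : Finset ι, C.Nonempty → C.card < K → ∃ k, one1 C (M k)

theorem good_supp {K D : ℕ} {M : Fin D → ι → ℝ} (h : Good K M) (u : ι → ℝ)
    (hu : ∀ k, dotL (M k) u = 0) (hne : u ≠ 0) : K ≤ (sup0 u).card := by
  by_contra hlt
  push Not at hlt
  have hn : (sup0 u).Nonempty := by
    rw [Finset.nonempty_iff_ne_empty]
    intro he
    apply hne
    funext i
    by_contra hi
    have : i ∈ sup0 u := mem_sup0.2 hi
    rw [he] at this
    simp at this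
  obtain ⟨k, i, hi, h1, h2⟩ := h (sup0 u) hn hlt
  have h3 := hu k
  rw [dotL_apply, Finset.sum_eq_single i] at h3
  · rcases mul_eq_zero.1 h3 with h4 | h4
    · exact h1 h4
    · exact (mem_sup0.1 hi) h4
  · intro j _ hj
    by_cases hj' : j ∈ sup0 u
    · rw [h2 j hj' hj, zero_mul]
    · have : u j = 0 := by
        by_contra hc
        exact hj' (mem_sup0.2 hc)
      rw [this, mul_zero]
  · intro h4
    exact absurd (Finset.mem_univ i) h4

theorem measurableSet_one1 (C : Finset ι) : MeasurableSet {r : ι → ℝ | one1 C r} := by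
  have : {r : ι → ℝ | one1 C r} = ⋃ i ∈ C, ({r | r i ≠ 0} ∩ ⋂ i' ∈ C.erase i, {r | r i' = 0}) := by
    ext r
    simp only [one1, Set.mem_ofPred_eq, Set.mem_iUnion, Set.mem_inter_iff, Set.mem_iInter,
      Finset.mem_erase, exists_prop]
    refine exists_congr fun i => and_congr_right fun _ => and_congr_right fun _ => ?_
    constructor
    · intro h i' hi'
      exact h i' hi'.2 hi'.1
    · intro h i' h1 h2
      exact h i' ⟨h2, h1⟩
  rw [this]
  refine Finset.measurableSet_biUnion C fun i _ => MeasurableSet.inter ?_ ?_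
  · exact (measurableSet_eq_fun (measurable_pi_apply i) measurable_const).compl
  · exact Finset.measurableSet_biInter _ fun i' _ =>
      measurableSet_eq_fun (measurable_pi_apply i') measurable_const

theorem measurableSet_Good (K : ℕ) {D : ℕ} :
    MeasurableSet {M : Fin D → ι → ℝ | Good K M} := by
  have : {M : Fin D → ι → ℝ | Good K M} =
      ⋂ C : Finset ι, {M | C.Nonempty → C.card < K → ∃ k, one1 C (M k)} := by
    ext M
    simp [Good]
  rw [this]
  refine MeasurableSet.iInter fun C => ?_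
  by_cases h1 : C.Nonempty
  · by_cases h2 : C.card < K
    · simp only [h1, h2, true_implies]
      have : {M : Fin D → ι → ℝ | ∃ k, one1 C (M k)} =
          ⋃ k, (fun M : Fin D → ι → ℝ => M k) ⁻¹' {r | one1 C r} := by
        ext M; simp
      rw [this]
      exact MeasurableSet.iUnion fun k => measurable_pi_apply k (measurableSet_one1 C)
    · simp [h2]
  · simp [h1]

theorem measurable_hd {D m : ℕ} :
    Measurable (hd : (Fin (D + m) → ι → ℝ) → Fin D → ι → ℝ) :=
  measurable_pi_lambda _ fun k => measurable_pi_apply (Fin.castAdd m k)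

/-- the event of the second stage -/
def Ev (D K m : ℕ) (A : Finset ι) : Set (Fin (D + m) → ι → ℝ) :=
  {M | Good K (hd M) ∧ Lk M A ≠ ⊥}

theorem measurableSet_Ev (D K m : ℕ) (A : Finset ι) : MeasurableSet (Ev D K m A) := by
  have : Ev D K m A = hd ⁻¹' {M | Good K M} ∩
      (fun M : Fin (D + m) → ι → ℝ => finrank ℝ (Lk M A)) ⁻¹' {0}ᶜ := by
    ext M
    simp only [Ev, Set.mem_ofPred_eq, Set.mem_inter_iff, Set.mem_preimage, Set.mem_compl_iff,
      Set.mem_singleton_iff, Submodule.finrank_eq_zero]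
  rw [this]
  exact (measurable_hd (measurableSet_Good K)).inter
    (measurable_finrank_Lk A (measurableSet_singleton 0).compl)

variable {μ0 : Measure ℝ} [IsProbabilityMeasure μ0]

theorem stage2 (hs : MeasurePreserving (Neg.neg : ℝ → ℝ) μ0 μ0) (D K : ℕ) (A : Finset ι) (m : ℕ) :
    4 ^ m * ∫⁻ M in Ev D K m A, pot A M ∂(matM μ0 ι (D + m)) ≤
      (3 + (μ0 {0}) ^ K) ^ m * ∫⁻ M, pot A M ∂(matM μ0 ι D) := by
  induction m with
  | zero =>
    simp only [pow_zero, one_mul]
    exact setLIntegral_le_lintegral _ _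
  | succ m ih =>
    rw [← lintegral_indicator (measurableSet_Ev D K (m + 1) A)]
    rw [← lintegral_indicator (measurableSet_Ev D K m A)] at ih
    have hmeas : Measurable ((Ev D K (m + 1) A).indicator (pot A)) :=
      (measurable_pot A).indicator (measurableSet_Ev D K (m + 1) A)
    have hsucc := lint_succ (μ0 := μ0) (j := D + m) _ hmeas
    change 4 ^ (m + 1) * ∫⁻ M : Fin (D + m + 1) → ι → ℝ, (Ev D K (m + 1) A).indicator (pot A) M
      ∂(matM μ0 ι (D + m + 1)) ≤ _
    rw [hsucc]
    have key : ∀ M : Fin (D + m) → ι → ℝ,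
        4 * ∫⁻ r, (Ev D K (m + 1) A).indicator (pot A)
          (Fin.snoc M r : Fin (D + m + 1) → ι → ℝ) ∂(Measure.pi fun _ : ι => μ0) ≤
        (3 + (μ0 {0}) ^ K) * (Ev D K m A).indicator (pot A) M := by
      intro M
      by_cases hM : M ∈ Ev D K m A
      · rw [Set.indicator_of_mem hM]
        obtain ⟨u, hu, hu0⟩ := (Submodule.ne_bot_iff _).1 hM.2
        have hsupp : K ≤ (sup0 u).card := by
          refine good_supp hM.1 u (fun k => ?_) hu0
          exact (mem_Lk.1 hu).1 (Fin.castAdd m k)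
        have hp := perp_le hs (Lk M A) u hu
        have hpow : (μ0 {0}) ^ (sup0 u).card ≤ (μ0 {0}) ^ K :=
          pow_le_pow_right_of_le_one' prob_le_one hsupp
        calc 4 * ∫⁻ r, (Ev D K (m + 1) A).indicator (pot A)
              (Fin.snoc M r : Fin (D + m + 1) → ι → ℝ) ∂(Measure.pi fun _ : ι => μ0)
            ≤ 4 * ∫⁻ r, 2 ^ finrank ℝ ↥(Lk M A ⊓ LinearMap.ker (dotL r))
                ∂(Measure.pi fun _ : ι => μ0) := by
              gcongr with r
              refine (Set.indicator_le_self _ _ _).trans ?_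
              rw [pot_snoc]
          _ = 2 * ∫⁻ r, 2 * 2 ^ finrank ℝ ↥(Lk M A ⊓ LinearMap.ker (dotL r))
                ∂(Measure.pi fun _ : ι => μ0) := by
              rw [lintegral_const_mul' _ _ (by finiteness), ← mul_assoc]
              norm_num
          _ = pot A M * (2 + 2 * (Measure.pi fun _ : ι => μ0) (perp (Lk M A))) := by
              rw [lint_row hs]
              unfold pot
              ring
          _ ≤ pot A M * (2 + (1 + (μ0 {0}) ^ K)) := by
              gcongr
              exact hp.trans (by gcongr)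
          _ = (3 + (μ0 {0}) ^ K) * pot A M := by
              rw [mul_comm, ← add_assoc]
              norm_num
      · rw [Set.indicator_of_notMem hM]
        have : ∀ r, (Ev D K (m + 1) A).indicator (pot A)
            (Fin.snoc M r : Fin (D + m + 1) → ι → ℝ) = 0 := by
          intro r
          refine Set.indicator_of_notMem (fun h => hM ?_) _
          obtain ⟨h1, h2⟩ := h
          rw [hd_snoc] at h1
          refine ⟨h1, fun h3 => h2 ?_⟩
          have h4 := Lk_snoc M r A
          rw [h3, bot_inf_eq] at h4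
          exact h4
        simp only [this, lintegral_zero, mul_zero, le_refl]
    calc 4 ^ (m + 1) * ∫⁻ M, ∫⁻ r, (Ev D K (m + 1) A).indicator (pot A)
            (Fin.snoc M r : Fin (D + m + 1) → ι → ℝ) ∂(Measure.pi fun _ : ι => μ0)
            ∂(matM μ0 ι (D + m))
        = 4 ^ m * ∫⁻ M, 4 * ∫⁻ r, (Ev D K (m + 1) A).indicator (pot A)
            (Fin.snoc M r : Fin (D + m + 1) → ι → ℝ) ∂(Measure.pi fun _ : ι => μ0)
            ∂(matM μ0 ι (D + m)) := by
          rw [lintegral_const_mul' _ _ (by finiteness), pow_succ, mul_assoc]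
      _ ≤ 4 ^ m * ∫⁻ M, (3 + (μ0 {0}) ^ K) * (Ev D K m A).indicator (pot A) M
            ∂(matM μ0 ι (D + m)) :=
          mul_le_mul_right (lintegral_mono fun M => key M) _
      _ = (3 + (μ0 {0}) ^ K) * (4 ^ m * ∫⁻ M, (Ev D K m A).indicator (pot A) M
            ∂(matM μ0 ι (D + m))) := by
          rw [lintegral_const_mul' _ _ (by finiteness)]
          ring
      _ ≤ (3 + (μ0 {0}) ^ K) * ((3 + (μ0 {0}) ^ K) ^ m * ∫⁻ M, pot A M ∂(matM μ0 ι D)) := by
          gcongr
      _ = _ := by ring

theorem prob_Ev (hs : MeasurePreserving (Neg.neg : ℝ → ℝ) μ0 μ0) (D K m : ℕ) (A : Finset ι) :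
    2 ^ D * 4 ^ m * (matM μ0 ι (D + m)) (Ev D K m A) ≤
      (3 + (μ0 {0}) ^ K) ^ m * ∑ B ∈ A.powerset, (1 + (μ0 {0}) ^ B.card) ^ D := by
  have h1 : (matM μ0 ι (D + m)) (Ev D K m A) ≤
      ∫⁻ M in Ev D K m A, pot A M ∂(matM μ0 ι (D + m)) := by
    rw [← setLIntegral_one]
    refine lintegral_mono fun M => ?_
    exact one_le_pow₀ (by norm_num)
  calc 2 ^ D * 4 ^ m * (matM μ0 ι (D + m)) (Ev D K m A)
      ≤ 2 ^ D * (4 ^ m * ∫⁻ M in Ev D K m A, pot A M ∂(matM μ0 ι (D + m))) := by
        rw [mul_assoc]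
        gcongr
    _ ≤ 2 ^ D * ((3 + (μ0 {0}) ^ K) ^ m * ∫⁻ M, pot A M ∂(matM μ0 ι D)) :=
        mul_le_mul_right (stage2 hs D K A m) _
    _ = (3 + (μ0 {0}) ^ K) ^ m * (2 ^ D * ∫⁻ M, pot A M ∂(matM μ0 ι D)) := by ring
    _ ≤ _ := by
        gcongr
        exact pot_bound hs D A

theorem measure_one1 (C : Finset ι) :
    (Measure.pi fun _ : ι => μ0) {r | one1 C r} =
      C.card * (μ0 {0}ᶜ * (μ0 {0}) ^ (C.card - 1)) := by
  have : {r : ι → ℝ | one1 C r} = ⋃ i ∈ C, {r | r i ≠ 0 ∧ ∀ i' ∈ C, i' ≠ i → r i' = 0} := by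
    ext r
    simp only [one1, Set.mem_ofPred_eq, Set.mem_iUnion, exists_prop]
  rw [this, measure_biUnion_finset]
  · have h1 : ∀ i ∈ C, (Measure.pi fun _ : ι => μ0) {r | r i ≠ 0 ∧ ∀ i' ∈ C, i' ≠ i → r i' = 0} =
        μ0 {0}ᶜ * (μ0 {0}) ^ (C.card - 1) := by
      intro i hi
      have h : {r : ι → ℝ | r i ≠ 0 ∧ ∀ i' ∈ C, i' ≠ i → r i' = 0} =
          Set.univ.pi (fun j => if j = i then ({0} : Set ℝ)ᶜ else
            if j ∈ C then ({0} : Set ℝ) else Set.univ) := by
        ext r
        simp only [Set.mem_ofPred_eq, Set.mem_pi, Set.mem_univ, true_implies]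
        constructor
        · rintro ⟨h1, h2⟩ j
          by_cases hj : j = i
          · subst hj; simp [h1]
          · by_cases hjC : j ∈ C
            · simp [hj, hjC, h2 j hjC hj]
            · simp [hj, hjC]
        · intro h
          refine ⟨by simpa using h i, fun i' h1 h2 => ?_⟩
          simpa [h1, h2] using h i'
      rw [h, Measure.pi_pi]
      have h3 : ∀ j : ι, μ0 (if j = i then ({0} : Set ℝ)ᶜ else
            if j ∈ C then ({0} : Set ℝ) else Set.univ) =
          (if j = i then μ0 {0}ᶜ else 1) * (if j ∈ C.erase i then μ0 {0} else 1) := by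
        intro j
        by_cases hj : j = i
        · subst hj; simp
        · by_cases hjC : j ∈ C <;> simp [hj, hjC]
      simp only [h3, Finset.prod_mul_distrib, Finset.prod_ite_eq', Finset.mem_univ, if_true]
      congr 1
      rw [Finset.prod_ite_mem, Finset.univ_inter, Finset.prod_const, Finset.card_erase_of_mem hi]
    rw [Finset.sum_congr rfl h1, Finset.sum_const, nsmul_eq_mul]
  · intro i hi j hj hne
    rw [Function.onFun, Set.disjoint_left]
    rintro r ⟨h1, -⟩ ⟨-, h2⟩
    exact h1 (h2 i hi hne)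
  · intro i _
    have : {r : ι → ℝ | r i ≠ 0 ∧ ∀ i' ∈ C, i' ≠ i → r i' = 0} =
        {r | r i ≠ 0} ∩ ⋂ i' ∈ C.erase i, {r | r i' = 0} := by
      ext r
      simp only [Set.mem_ofPred_eq, Set.mem_inter_iff, Set.mem_iInter, Finset.mem_erase]
      refine and_congr_right fun _ => ?_
      constructor
      · intro h i' hi'
        exact h i' hi'.2 hi'.1
      · intro h i' h1 h2
        exact h i' ⟨h2, h1⟩
    rw [this]
    refine MeasurableSet.inter ?_ ?_
    · exact (measurableSet_eq_fun (measurable_pi_apply i) measurable_const).compl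
    · exact Finset.measurableSet_biInter _ fun i' _ =>
        measurableSet_eq_fun (measurable_pi_apply i') measurable_const

theorem not_good_le (K D : ℕ) :
    (matM μ0 ι D) {M | ¬ Good K M} ≤
      ∑ C ∈ (univ : Finset (Finset ι)).filter (fun C => C.Nonempty ∧ C.card < K),
        (1 - C.card * (μ0 {0}ᶜ * (μ0 {0}) ^ (C.card - 1))) ^ D := by
  have h1 : {M : Fin D → ι → ℝ | ¬ Good K M} ⊆
      ⋃ C ∈ (univ : Finset (Finset ι)).filter (fun C => C.Nonempty ∧ C.card < K),
        Set.univ.pi fun _ : Fin D => {r | one1 C r}ᶜ := by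
    intro M hM
    simp only [Good, Set.mem_ofPred_eq] at hM
    push Not at hM
    obtain ⟨C, hC1, hC2, hC3⟩ := hM
    simp only [Set.mem_iUnion, Finset.mem_filter, Finset.mem_univ, true_and]
    exact ⟨C, ⟨hC1, hC2⟩, fun k _ => hC3 k⟩
  refine (measure_mono h1).trans ((measure_biUnion_finset_le _ _).trans ?_)
  refine Finset.sum_le_sum fun C _ => ?_
  unfold matM
  rw [Measure.pi_pi]
  rw [prob_compl_eq_one_sub (measurableSet_one1 C), measure_one1, Finset.prod_const]
  simp

end Pool.Agent.Helper93K9.Wendel
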