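import Mathlib
import Pool.Agent.Helper93K9.Wendel.Count
import Pool.Agent.Helper93K9.Wendel.Stage

/-!
# The probability that the origin is not in the convex hull
-/

set_option autoImplicit false
set_option linter.unusedSectionVars false

namespace Pool.Agent.Helper93K9.Wendel

open MeasureTheory Finset Module ENNReal

/-- the `i`-th column -/
def col {n d : ℕ} (x : Fin d → Fin n → ℝ) (i : Fin n) : Fin d → ℝ := fun j => x j i

/-- the origin is not in the convex hull of the columns -/
def Out (n d : ℕ) : Set (Fin d → Fin n → ℝ) :=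
  {x | (0 : Fin d → ℝ) ∉ convexHull ℝ (Set.range fun i => col x i)}

/-- the functionals given by the columns -/
noncomputable def fx {n d : ℕ} (x : Fin d → Fin n → ℝ) : Fin n → (Fin d → ℝ) →ₗ[ℝ] ℝ :=
  fun i => dotL (col x i)

theorem mem_Out {n d : ℕ} (x : Fin d → Fin n → ℝ) :
    x ∈ Out n d ↔ ∃ y : Fin d → ℝ, ∀ i, 0 < fx x i y := by
  constructor
  · intro h
    have hfin : (Set.range fun i => col x i).Finite := Set.finite_range _
    obtain ⟨f, u, hfu, hf⟩ := geometric_hahn_banach_point_closed (convex_convexHull ℝ _)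
      (hfin.isClosed_convexHull ℝ) h
    refine ⟨fun j => f (Pi.single j 1), fun i => ?_⟩
    have h1 : fx x i (fun j => f (Pi.single j 1)) = f (col x i) := by
      have h2 : col x i = ∑ j, (col x i j) • (Pi.single j (1 : ℝ) : Fin d → ℝ) := by
        funext k
        simp [Finset.sum_apply, Pi.single_apply]
      conv_rhs => rw [h2]
      rw [map_sum]
      simp only [map_smul, smul_eq_mul]
      unfold fx
      rw [dotL_apply]
    rw [h1]
    have h3 := hf _ (subset_convexHull ℝ _ (Set.mem_range_self i))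
    rw [map_zero] at hfu
    linarith
  · rintro ⟨y, hy⟩ h0
    have hc : Convex ℝ {v : Fin d → ℝ | 0 < dotL y v} := by
      intro a ha b hb s t hs ht hst
      simp only [Set.mem_ofPred_eq, map_add, map_smul, smul_eq_mul] at ha hb ⊢
      rcases hs.eq_or_lt with rfl | hs'
      · have : t = 1 := by linarith
        subst this
        simpa using hb
      · have h1 := mul_pos hs' ha
        have h2 := mul_nonneg ht hb.le
        linarith
    have hsub : convexHull ℝ (Set.range fun i => col x i) ⊆ {v : Fin d → ℝ | 0 < dotL y v} := by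
      refine convexHull_min ?_ hc
      rintro _ ⟨i, rfl⟩
      have := hy i
      unfold fx at this
      rw [dotL_apply] at this
      simp only [Set.mem_ofPred_eq, dotL_apply]
      simpa [mul_comm] using this
    have := hsub h0
    simp at this

/-- change of the signs of the columns -/
noncomputable def sgm {n d : ℕ} (σ : Fin n → Bool) (x : Fin d → Fin n → ℝ) : Fin d → Fin n → ℝ :=
  fun j i => sg (σ i) * x j i

theorem fx_sgm {n d : ℕ} (σ : Fin n → Bool) (x : Fin d → Fin n → ℝ) (i : Fin n)
    (y : Fin d → ℝ) : fx (sgm σ x) i y = sg (σ i) * fx x i y := by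
  unfold fx
  rw [dotL_apply, dotL_apply, Finset.mul_sum]
  refine Finset.sum_congr rfl fun j _ => ?_
  simp [col, sgm, mul_assoc]

theorem mem_cells_fx {n d : ℕ} (σ : Fin n → Bool) (x : Fin d → Fin n → ℝ) :
    σ ∈ cells (fx x) ↔ sgm σ x ∈ Out n d := by
  rw [mem_cells, mem_Out]
  simp only [fx_sgm]

theorem isOpen_Out (n d : ℕ) : IsOpen (Out n d) := by
  have : Out n d = ⋃ y : Fin d → ℝ, ⋂ i : Fin n, {x | 0 < fx x i y} := by
    ext x
    rw [mem_Out]
    simp
  rw [this]
  refine isOpen_iUnion fun y => isOpen_iInter_of_finite fun i => ?_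
  refine isOpen_lt continuous_const ?_
  unfold fx
  simp only [dotL_apply, col]
  fun_prop

variable {μ0 : Measure ℝ} [IsProbabilityMeasure μ0]

theorem sgm_mp (hs : MeasurePreserving (Neg.neg : ℝ → ℝ) μ0 μ0) {n d : ℕ} (σ : Fin n → Bool) :
    MeasurePreserving (sgm σ) (matM μ0 (Fin n) d) (matM μ0 (Fin n) d) := by
  refine measurePreserving_pi (fun _ : Fin d => (Measure.pi fun _ : Fin n => μ0))
    (fun _ : Fin d => (Measure.pi fun _ : Fin n => μ0))
    (f := fun _ (r : Fin n → ℝ) i => sg (σ i) * r i) (fun _ => ?_)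
  refine measurePreserving_pi (fun _ : Fin n => μ0) (fun _ : Fin n => μ0)
    (f := fun i x => sg (σ i) * x) (fun i => ?_)
  cases h : σ i
  · simp only [sg_false, neg_mul, one_mul]
    exact hs
  · simp only [sg_true, one_mul]
    exact MeasurePreserving.id μ0

theorem two_pow_mul_out (hs : MeasurePreserving (Neg.neg : ℝ → ℝ) μ0 μ0) (n d : ℕ) :
    2 ^ n * (matM μ0 (Fin n) d) (Out n d) =
      ∫⁻ x, ((cells (fx x)).card : ℝ≥0∞) ∂(matM μ0 (Fin n) d) := by
  classical
  have h1 : ∀ x : Fin d → Fin n → ℝ, ((cells (fx x)).card : ℝ≥0∞) =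
      ∑ σ : Fin n → Bool, (sgm σ ⁻¹' (Out n d)).indicator 1 x := by
    intro x
    have : cells (fx x) = univ.filter fun σ => sgm σ x ∈ Out n d := by
      ext σ
      rw [mem_cells_fx]
      simp
    rw [this, Finset.card_filter]
    push_cast
    refine Finset.sum_congr rfl fun σ _ => ?_
    by_cases h : sgm σ x ∈ Out n d
    · rw [if_pos h, Set.indicator_of_mem (s := sgm σ ⁻¹' Out n d) h]
      simp
    · rw [if_neg h, Set.indicator_of_notMem (s := sgm σ ⁻¹' Out n d) h]
  simp_rw [h1]
  rw [lintegral_finsetSum]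
  · have h2 : ∀ σ : Fin n → Bool, ∫⁻ x, (sgm σ ⁻¹' (Out n d)).indicator 1 x ∂(matM μ0 (Fin n) d) =
        (matM μ0 (Fin n) d) (Out n d) := by
      intro σ
      rw [lintegral_indicator_one ((sgm_mp hs σ).measurable (isOpen_Out n d).measurableSet)]
      exact (sgm_mp hs σ).measure_preimage (isOpen_Out n d).measurableSet.nullMeasurableSet
    simp_rw [h2]
    simp
  · intro σ _
    exact measurable_one.indicator ((sgm_mp hs σ).measurable (isOpen_Out n d).measurableSet)

theorem out_le (hs : MeasurePreserving (Neg.neg : ℝ → ℝ) μ0 μ0) (n d : ℕ) :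
    2 ^ n * (matM μ0 (Fin n) d) (Out n d) ≤ covN n d := by
  rw [two_pow_mul_out hs]
  calc ∫⁻ x, ((cells (fx x)).card : ℝ≥0∞) ∂(matM μ0 (Fin n) d)
      ≤ ∫⁻ _x, (covN n d : ℝ≥0∞) ∂(matM μ0 (Fin n) d) := by
        refine lintegral_mono fun x => ?_
        have := cells_le_covN n (Fin d → ℝ) (fx x)
        rw [finrank_fintype_fun_eq_card, Fintype.card_fin] at this
        exact Nat.cast_le.2 this
    _ = covN n d := by simp

theorem indep_iff {n d : ℕ} (x : Fin d → Fin n → ℝ) (A : Finset (Fin n)) :
    LinearIndepOn ℝ (fx x) (↑A : Set (Fin n)) ↔ Lk x A = ⊥ := by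
  rw [linearIndepOn_finset_iff, Submodule.eq_bot_iff]
  have key : ∀ g : Fin n → ℝ, (∀ i, i ∉ A → g i = 0) →
      ((∑ i ∈ A, g i • fx x i = 0) ↔ ∀ k, dotL (x k) g = 0) := by
    intro g hg
    constructor
    · intro h k
      have h1 := congrArg (fun L => L (Pi.single k 1)) h
      simp only [LinearMap.sum_apply, LinearMap.smul_apply, smul_eq_mul, LinearMap.zero_apply] at h1
      rw [dotL_apply, ← h1]
      symm
      rw [← Finset.sum_subset (Finset.subset_univ A)]
      · refine Finset.sum_congr rfl fun i _ => ?_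
        unfold fx
        rw [dotL_apply, Finset.sum_eq_single k]
        · simp [col, mul_comm]
        · intro j _ hj; simp [hj]
        · simp
      · intro i _ hi
        rw [hg i hi, mul_zero]
    · intro h
      ext j
      simp only [LinearMap.comp_apply, LinearMap.sum_apply, LinearMap.smul_apply, smul_eq_mul,
        LinearMap.zero_apply]
      have h1 := h j
      rw [dotL_apply] at h1
      rw [← h1, ← Finset.sum_subset (Finset.subset_univ A)]
      · refine Finset.sum_congr rfl fun i _ => ?_
        unfold fx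
        rw [dotL_apply, Finset.sum_eq_single j]
        · simp [col, mul_comm]
        · intro k _ hk; simp [hk]
        · simp
      · intro i _ hi
        rw [hg i hi, mul_zero]
  constructor
  · intro h u hu
    rw [mem_Lk] at hu
    have h1 := h u ((key u hu.2).2 hu.1)
    funext i
    by_cases hi : i ∈ A
    · exact h1 i hi
    · exact hu.2 i hi
  · intro h g hg i hi
    have h1 := h (fun i => if i ∈ A then g i else 0) (by
      rw [mem_Lk]
      refine ⟨(key _ (fun i hi => if_neg hi)).1 ?_, fun i hi => if_neg hi⟩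
      rw [← hg]
      refine Finset.sum_congr rfl fun i hi => ?_
      rw [if_pos hi])
    have h2 := congrFun h1 i
    simpa [hi] using h2

/-- bad event for the set `S` -/
def BadS (n d : ℕ) (S : Finset (Fin n)) : Set (Fin d → Fin n → ℝ) :=
  ⋃ e : Fin n, {x | Lk x (insert e S) ≠ ⊥}

theorem measurableSet_BadS (n d : ℕ) (S : Finset (Fin n)) : MeasurableSet (BadS n d S) := by
  refine MeasurableSet.iUnion fun e => ?_
  have : {x : Fin d → Fin n → ℝ | Lk x (insert e S) ≠ ⊥} =
      (fun M : Fin d → Fin n → ℝ => finrank ℝ (Lk M (insert e S))) ⁻¹' {0}ᶜ := by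
    ext x
    simp only [Set.mem_ofPred_eq, Set.mem_preimage, Set.mem_compl_iff,
      Set.mem_singleton_iff, Submodule.finrank_eq_zero]
  rw [this]
  exact measurable_finrank_Lk _ (measurableSet_singleton 0).compl

theorem le_out (hs : MeasurePreserving (Neg.neg : ℝ → ℝ) μ0 μ0) (n d : ℕ)
    (F : Finset (Finset (Fin n))) :
    ∑ S ∈ F, (1 - (matM μ0 (Fin n) d) (BadS n d S)) ≤ 2 ^ n * (matM μ0 (Fin n) d) (Out n d) := by
  classical
  rw [two_pow_mul_out hs]
  have h1 : ∀ S : Finset (Fin n), 1 - (matM μ0 (Fin n) d) (BadS n d S) =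
      ∫⁻ x, (BadS n d S)ᶜ.indicator 1 x ∂(matM μ0 (Fin n) d) := by
    intro S
    rw [lintegral_indicator_one (measurableSet_BadS n d S).compl,
      prob_compl_eq_one_sub (measurableSet_BadS n d S)]
  simp_rw [h1]
  rw [← lintegral_finsetSum]
  · refine lintegral_mono fun x => ?_
    have h2 : ∑ S ∈ F, (BadS n d S)ᶜ.indicator (1 : (Fin d → Fin n → ℝ) → ℝ≥0∞) x =
        ((F.filter fun S => x ∉ BadS n d S).card : ℝ≥0∞) := by
      rw [Finset.card_filter]
      push_cast
      refine Finset.sum_congr rfl fun S _ => ?_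
      by_cases h : x ∈ BadS n d S
      · simp [h]
      · rw [if_pos h, Set.indicator_of_mem (by simpa using h)]
        simp
    beta_reduce
    rw [h2]
    have h3 : (F.filter fun S => x ∉ BadS n d S) ⊆ good (fx x) := by
      intro S hS
      rw [Finset.mem_filter] at hS
      rw [mem_good]
      intro e
      rw [indep_iff]
      by_contra hne
      exact hS.2 (Set.mem_iUnion.2 ⟨e, hne⟩)
    exact_mod_cast (Finset.card_le_card h3).trans (good_le_cells n _ (fx x))
  · intro S _
    exact measurable_one.indicator (measurableSet_BadS n d S).compl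

theorem measure_BadS_le (n D m K : ℕ)
    (S : Finset (Fin n)) :
    (matM μ0 (Fin n) (D + m)) (BadS n (D + m) S) ≤
      (matM μ0 (Fin n) (D + m)) {M | ¬ Good K (hd M)} +
      ∑ e : Fin n, (matM μ0 (Fin n) (D + m)) (Ev D K m (insert e S)) := by
  have : BadS n (D + m) S ⊆ {M | ¬ Good K (hd M)} ∪ ⋃ e : Fin n, Ev D K m (insert e S) := by
    intro x hx
    obtain ⟨e, he⟩ := Set.mem_iUnion.1 hx
    by_cases hG : Good K (hd (m := m) x)
    · exact Or.inr (Set.mem_iUnion.2 ⟨e, hG, he⟩)
    · exact Or.inl hG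
  refine (measure_mono this).trans ((measure_union_le _ _).trans ?_)
  gcongr
  refine (measure_iUnion_le _).trans ?_
  rw [tsum_fintype]

theorem not_good_hd_le (ι : Type) [Fintype ι] [DecidableEq ι] (K D m : ℕ) :
    (matM μ0 ι (D + m)) {M | ¬ Good K (hd M)} ≤
      ∑ C ∈ (univ : Finset (Finset ι)).filter (fun C => C.Nonempty ∧ C.card < K),
        (1 - C.card * (μ0 {0}ᶜ * (μ0 {0}) ^ (C.card - 1))) ^ D := by
  have h1 : {M : Fin (D + m) → ι → ℝ | ¬ Good K (hd M)} ⊆
      ⋃ C ∈ (univ : Finset (Finset ι)).filter (fun C => C.Nonempty ∧ C.card < K),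
        Set.univ.pi (Fin.append (fun _ : Fin D => {r | one1 C r}ᶜ) (fun _ : Fin m => Set.univ)) := by
    intro M hM
    simp only [Good, Set.mem_ofPred_eq] at hM
    push Not at hM
    obtain ⟨C, hC1, hC2, hC3⟩ := hM
    simp only [Set.mem_iUnion, Finset.mem_filter, Finset.mem_univ, true_and]
    refine ⟨C, ⟨hC1, hC2⟩, fun k _ => ?_⟩
    refine Fin.addCases (fun k => ?_) (fun k => ?_) k
    · rw [Fin.append_left]
      exact hC3 k
    · rw [Fin.append_right]
      exact Set.mem_univ _
  refine (measure_mono h1).trans ((measure_biUnion_finset_le _ _).trans ?_)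
  refine Finset.sum_le_sum fun C _ => ?_
  unfold matM
  rw [Measure.pi_pi, Fin.prod_univ_add]
  simp only [Fin.append_left, Fin.append_right, measure_univ, Finset.prod_const_one, mul_one]
  rw [prob_compl_eq_one_sub (measurableSet_one1 C), measure_one1, Finset.prod_const]
  simp

end Pool.Agent.Helper93K9.Wendel
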