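import Mathlib
import Pool.Agent.Helper93K9.Wendel.Link
import Pool.Agent.Helper93K9.Wendel.Asym

/-!
# Lower bound for the probability, in real numbers
-/

set_option autoImplicit false
set_option linter.unusedSectionVars false

namespace Pool.Agent.Helper93K9.Wendel

open MeasureTheory Finset Module

variable {μ0 : Measure ℝ} [IsProbabilityMeasure μ0]

theorem ng_real (n K D m : ℕ) (a q δ : ℝ) (ha : μ0 {0} = ENNReal.ofReal a) (ha0 : 0 ≤ a)
    (hq : q = 1 - a) (hq0 : 0 < q) (hK : ∀ c : ℕ, c < K → c * q ≤ δ) :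
    (matM μ0 (Fin n) (D + m)) {M | ¬ Good K (hd M)} ≤
      ENNReal.ofReal ((1 + Real.exp (-((1 - δ) * q * D))) ^ n - 1) := by
  classical
  set z := Real.exp (-((1 - δ) * q * D)) with hz
  have hz0 : 0 < z := Real.exp_pos _
  have hac : μ0 {0}ᶜ = ENNReal.ofReal q := by
    rw [prob_compl_eq_one_sub (measurableSet_singleton 0), ha, hq, ENNReal.ofReal_sub _ ha0,
      ENNReal.ofReal_one]
  refine (not_good_hd_le (Fin n) K D m).trans ?_
  have hterm : ∀ C ∈ (univ : Finset (Finset (Fin n))).filter (fun C => C.Nonempty ∧ C.card < K),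
      (1 - (C.card : ENNReal) * (μ0 {0}ᶜ * (μ0 {0}) ^ (C.card - 1))) ^ D ≤
        ENNReal.ofReal (z ^ C.card) := by
    intro C hC
    rw [Finset.mem_filter] at hC
    obtain ⟨-, hC1, hC2⟩ := hC
    have hc1 : 1 ≤ C.card := hC1.card_pos
    have hcq := hK _ hC2
    rw [hac, ha, ← ENNReal.ofReal_pow ha0, ← ENNReal.ofReal_mul hq0.le,
      ← ENNReal.ofReal_natCast, ← ENNReal.ofReal_mul (Nat.cast_nonneg _), ← ENNReal.ofReal_one,
      ← ENNReal.ofReal_sub _ (by positivity)]
    have h1 : 1 - (C.card : ℝ) * (q * a ^ (C.card - 1)) ≤ Real.exp (-((1 - δ) * q * C.card)) := by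
      have h2 : (1 : ℝ) - δ ≤ a ^ (C.card - 1) := by
        have h3 := one_add_mul_le_pow (a := -q) (by
          have : q ≤ 1 := by rw [hq]; linarith
          linarith) (C.card - 1)
        have h4 : (1 : ℝ) + -q = a := by rw [hq]; ring
        rw [h4] at h3
        refine le_trans ?_ h3
        have h5 : ((C.card - 1 : ℕ) : ℝ) ≤ C.card := by
          exact_mod_cast Nat.sub_le _ _
        nlinarith
      have h6 := Real.add_one_le_exp (-((1 - δ) * q * C.card))
      have h7 : (1 - δ) * q * C.card ≤ (C.card : ℝ) * (q * a ^ (C.card - 1)) := by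
        have h8 : 0 ≤ q * (C.card : ℝ) := by positivity
        nlinarith [mul_le_mul_of_nonneg_left h2 h8]
      linarith
    calc (ENNReal.ofReal (1 - (C.card : ℝ) * (q * a ^ (C.card - 1)))) ^ D
        ≤ (ENNReal.ofReal (Real.exp (-((1 - δ) * q * C.card)))) ^ D := by
          gcongr
      _ = ENNReal.ofReal (z ^ C.card) := by
          rw [← ENNReal.ofReal_pow (Real.exp_pos _).le]
          congr 1
          rw [hz, ← Real.exp_nat_mul, ← Real.exp_nat_mul]
          congr 1
          ring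
  refine (Finset.sum_le_sum hterm).trans ?_
  rw [← ENNReal.ofReal_sum_of_nonneg (fun C _ => by positivity)]
  refine ENNReal.ofReal_le_ofReal ?_
  have hall : ∑ C : Finset (Fin n), z ^ C.card = (z + 1) ^ n := by
    have := Fintype.sum_pow_mul_eq_add_pow (Fin n) z 1
    simpa using this
  have hsub : (univ : Finset (Finset (Fin n))).filter (fun C => C.Nonempty ∧ C.card < K) ⊆
      univ.erase ∅ := by
    intro C hC
    rw [Finset.mem_filter] at hC
    rw [Finset.mem_erase]
    exact ⟨hC.2.1.ne_empty, Finset.mem_univ _⟩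
  calc ∑ C ∈ (univ : Finset (Finset (Fin n))).filter (fun C => C.Nonempty ∧ C.card < K), z ^ C.card
      ≤ ∑ C ∈ (univ : Finset (Finset (Fin n))).erase ∅, z ^ C.card :=
        Finset.sum_le_sum_of_subset_of_nonneg hsub fun C _ _ => by positivity
    _ = (1 + z) ^ n - 1 := by
        have := Finset.sum_erase_add univ (fun C : Finset (Fin n) => z ^ C.card)
          (Finset.mem_univ ∅)
        rw [hall] at this
        simp only [Finset.card_empty, pow_zero] at this
        rw [add_comm z 1] at this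
        linarith

theorem ev_real (hs : MeasurePreserving (Neg.neg : ℝ → ℝ) μ0 μ0) (n K D m : ℕ) (a q δ : ℝ)
    (ha : μ0 {0} = ENNReal.ofReal a) (ha0 : 0 ≤ a) (hq : q = 1 - a)
    (hK2 : δ ≤ K * q) (A : Finset (Fin n)) (hA : A.card ≤ D) :
    (matM μ0 (Fin n) (D + m)) (Ev D K m A) ≤
      ENNReal.ofReal (((3 + Real.exp (-δ)) / 4) ^ m * FD D a) := by
  classical
  have h1 := prob_Ev hs D K m A
  have e1 : ∑ B ∈ A.powerset, (1 + (μ0 {0}) ^ B.card) ^ D =
      ENNReal.ofReal (∑ B ∈ A.powerset, (1 + a ^ B.card) ^ D) := by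
    rw [ENNReal.ofReal_sum_of_nonneg (fun B _ => by positivity)]
    refine Finset.sum_congr rfl fun B _ => ?_
    rw [ha, ← ENNReal.ofReal_pow ha0, ← ENNReal.ofReal_one, ← ENNReal.ofReal_add (by norm_num)
      (by positivity), ENNReal.ofReal_pow (by positivity)]
  have e2 : (3 + (μ0 {0}) ^ K) ^ m = ENNReal.ofReal ((3 + a ^ K) ^ m) := by
    rw [ha, ← ENNReal.ofReal_pow ha0]
    have : (3 : ENNReal) = ENNReal.ofReal 3 := by norm_num
    rw [this, ← ENNReal.ofReal_add (by norm_num) (by positivity), ENNReal.ofReal_pow (by positivity)]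
  rw [e1, e2, ← ENNReal.ofReal_mul (by positivity)] at h1
  have h2 : (2 : ENNReal) ^ D * 4 ^ m = ENNReal.ofReal (2 ^ D * 4 ^ m) := by
    rw [ENNReal.ofReal_mul (by positivity), ENNReal.ofReal_pow (by norm_num),
      ENNReal.ofReal_pow (by norm_num)]
    norm_num
  rw [h2] at h1
  have hpos : (0 : ℝ) < 2 ^ D * 4 ^ m := by positivity
  have h3 : (matM μ0 (Fin n) (D + m)) (Ev D K m A) ≤
      ENNReal.ofReal ((3 + a ^ K) ^ m * (∑ B ∈ A.powerset, (1 + a ^ B.card) ^ D)) /
        ENNReal.ofReal (2 ^ D * 4 ^ m) := by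
    rw [ENNReal.le_div_iff_mul_le (Or.inl (by simpa using hpos)) (Or.inl ENNReal.ofReal_ne_top)]
    rwa [mul_comm]
  refine h3.trans ?_
  rw [← ENNReal.ofReal_div_of_pos hpos]
  refine ENNReal.ofReal_le_ofReal ?_
  rw [div_le_iff₀ hpos]
  have hsum : ∑ B ∈ A.powerset, (1 + a ^ B.card) ^ D ≤ FD D a * 2 ^ D := by
    rw [Finset.sum_powerset_apply_card (fun c => (1 + a ^ c) ^ D)]
    unfold FD
    rw [Finset.sum_mul]
    have hle : ∀ w ∈ range (A.card + 1), A.card.choose w • (1 + a ^ w) ^ D ≤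
        (D.choose w : ℝ) * ((1 + a ^ w) / 2) ^ D * 2 ^ D := by
      intro w _
      rw [nsmul_eq_mul, mul_assoc, ← mul_pow, div_mul_cancel₀ _ (by norm_num)]
      refine mul_le_mul_of_nonneg_right ?_ (by positivity)
      exact_mod_cast Nat.choose_le_choose w hA
    refine (Finset.sum_le_sum hle).trans ?_
    refine Finset.sum_le_sum_of_subset_of_nonneg ?_ fun w _ _ => by positivity
    intro w hw
    rw [Finset.mem_range] at hw ⊢
    omega
  have haK : a ^ K ≤ Real.exp (-δ) := by
    have h4 : a ≤ Real.exp (-q) := by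
      have := Real.add_one_le_exp (-q)
      rw [hq] at this ⊢
      linarith
    calc a ^ K ≤ Real.exp (-q) ^ K := pow_le_pow_left₀ ha0 h4 K
      _ = Real.exp (-(K * q)) := by rw [← Real.exp_nat_mul]; ring_nf
      _ ≤ Real.exp (-δ) := Real.exp_le_exp.2 (by linarith)
  have hS0 : 0 ≤ ∑ B ∈ A.powerset, (1 + a ^ B.card) ^ D := Finset.sum_nonneg fun B _ => by positivity
  have hF0 : 0 ≤ FD D a := Finset.sum_nonneg fun w _ => by positivity
  calc (3 + a ^ K) ^ m * ∑ B ∈ A.powerset, (1 + a ^ B.card) ^ D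
      ≤ (3 + Real.exp (-δ)) ^ m * (FD D a * 2 ^ D) := by
        refine mul_le_mul ?_ hsum hS0 (by positivity)
        exact pow_le_pow_left₀ (by positivity) (by linarith) m
    _ = ((3 + Real.exp (-δ)) / 4) ^ m * FD D a * (2 ^ D * 4 ^ m) := by
        rw [div_pow]
        field_simp

theorem card_lt (n D : ℕ) :
    ((univ : Finset (Finset (Fin n))).filter fun S => S.card < D).card =
      ∑ k ∈ range D, n.choose k := by
  classical
  rw [Finset.card_eq_sum_card_fiberwise (f := Finset.card) (t := range D)]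
  · refine Finset.sum_congr rfl fun k hk => ?_
    have : (((univ : Finset (Finset (Fin n))).filter fun S => S.card < D).filter
        fun S => S.card = k) = Finset.powersetCard k univ := by
      ext S
      simp only [Finset.mem_filter, Finset.mem_univ, true_and, Finset.mem_powersetCard,
        Finset.subset_univ]
      rw [Finset.mem_range] at hk
      constructor
      · exact fun h => h.2
      · intro h
        exact ⟨by omega, h⟩
    rw [this, Finset.card_powersetCard, Finset.card_univ, Fintype.card_fin]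
  · intro S hS
    simp only [Finset.coe_filter, Finset.mem_univ, true_and, Set.mem_ofPred_eq] at hS
    simpa using hS

theorem prob_lower (hs : MeasurePreserving (Neg.neg : ℝ → ℝ) μ0 μ0) (n K D m : ℕ) (a q δ : ℝ)
    (ha : μ0 {0} = ENNReal.ofReal a) (ha0 : 0 ≤ a) (hq : q = 1 - a) (hq0 : 0 < q)
    (hK : ∀ c : ℕ, c < K → c * q ≤ δ) (hK2 : δ ≤ K * q) :
    (∑ k ∈ range D, (n.choose k : ℝ)) / 2 ^ n *
      (1 - ((1 + Real.exp (-((1 - δ) * q * D))) ^ n - 1) -
        n * (((3 + Real.exp (-δ)) / 4) ^ m * FD D a)) ≤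
      (matM μ0 (Fin n) (D + m)).real (Out n (D + m)) := by
  classical
  set μ := matM μ0 (Fin n) (D + m) with hμ
  set b1 := (1 + Real.exp (-((1 - δ) * q * D))) ^ n - 1 with hb1
  set b2 := ((3 + Real.exp (-δ)) / 4) ^ m * FD D a with hb2
  have hF0 : 0 ≤ FD D a := Finset.sum_nonneg fun w _ => by positivity
  have hb1' : 0 ≤ b1 := by
    have : (1 : ℝ) ≤ (1 + Real.exp (-((1 - δ) * q * D))) ^ n :=
      one_le_pow₀ (by linarith [Real.exp_pos (-((1 - δ) * q * D))])
    rw [hb1]; linarith
  have hb2' : 0 ≤ b2 := by positivity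
  have hbad : ∀ S ∈ (univ : Finset (Finset (Fin n))).filter (fun S => S.card < D),
      μ (BadS n (D + m) S) ≤ ENNReal.ofReal (b1 + n * b2) := by
    intro S hS
    rw [Finset.mem_filter] at hS
    refine (measure_BadS_le n D m K S).trans ?_
    rw [ENNReal.ofReal_add hb1' (by positivity)]
    refine add_le_add (ng_real n K D m a q δ ha ha0 hq hq0 hK) ?_
    have : ∀ e : Fin n, (matM μ0 (Fin n) (D + m)) (Ev D K m (insert e S)) ≤ ENNReal.ofReal b2 := by
      intro e
      refine ev_real hs n K D m a q δ ha ha0 hq hK2 _ ?_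
      exact (Finset.card_insert_le e S).trans (by omega)
    refine (Finset.sum_le_sum fun e _ => this e).trans ?_
    rw [Finset.sum_const, Finset.card_univ, Fintype.card_fin, nsmul_eq_mul,
      ← ENNReal.ofReal_natCast, ← ENNReal.ofReal_mul (Nat.cast_nonneg _)]
  have h1 := le_out hs n (D + m) ((univ : Finset (Finset (Fin n))).filter fun S => S.card < D)
  have h2 : ENNReal.ofReal ((∑ k ∈ range D, (n.choose k : ℝ)) * (1 - (b1 + n * b2))) ≤
      2 ^ n * μ (Out n (D + m)) := by
    refine le_trans ?_ h1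
    calc ENNReal.ofReal ((∑ k ∈ range D, (n.choose k : ℝ)) * (1 - (b1 + n * b2)))
        = ((∑ k ∈ range D, n.choose k : ℕ) : ENNReal) * ENNReal.ofReal (1 - (b1 + n * b2)) := by
          rw [ENNReal.ofReal_mul (Finset.sum_nonneg fun k _ => Nat.cast_nonneg _)]
          congr 1
          rw [← ENNReal.ofReal_natCast]
          push_cast
          rfl
      _ = ∑ S ∈ (univ : Finset (Finset (Fin n))).filter (fun S => S.card < D),
            ENNReal.ofReal (1 - (b1 + n * b2)) := by
          rw [Finset.sum_const, card_lt, nsmul_eq_mul]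
      _ ≤ ∑ S ∈ (univ : Finset (Finset (Fin n))).filter (fun S => S.card < D),
            (1 - μ (BadS n (D + m) S)) := by
          refine Finset.sum_le_sum fun S hS => ?_
          rw [ENNReal.ofReal_sub _ (by positivity), ENNReal.ofReal_one]
          exact tsub_le_tsub_left (hbad S hS) 1
  have h3 := ENNReal.toReal_mono (by finiteness) h2
  rw [ENNReal.toReal_mul, ENNReal.toReal_pow, ENNReal.toReal_ofNat] at h3
  have h4 : (∑ k ∈ range D, (n.choose k : ℝ)) * (1 - (b1 + n * b2)) ≤ 2 ^ n * μ.real (Out n (D + m)) := by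
    refine le_trans ?_ h3
    rw [ENNReal.toReal_ofReal']
    exact le_max_left _ _
  have h5 : (0 : ℝ) < 2 ^ n := by positivity
  have h6 : (∑ k ∈ range D, (n.choose k : ℝ)) / 2 ^ n * (1 - b1 - n * b2) =
      (∑ k ∈ range D, (n.choose k : ℝ)) * (1 - (b1 + n * b2)) / 2 ^ n := by ring
  rw [h6, div_le_iff₀ h5, mul_comm _ ((2 : ℝ) ^ n)]
  exact h4

/-- Wendel's number -/
noncomputable def W (n d : ℕ) : ℝ := (∑ k ∈ range d, ((n - 1).choose k : ℝ)) / 2 ^ (n - 1)

theorem prob_upper (hs : MeasurePreserving (Neg.neg : ℝ → ℝ) μ0 μ0) (n d : ℕ) (hn : 1 ≤ n) :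
    (matM μ0 (Fin n) d).real (Out n d) ≤ W n d := by
  have h1 := out_le hs n d
  have h2 := ENNReal.toReal_mono (by finiteness) h1
  rw [ENNReal.toReal_mul, ENNReal.toReal_pow, ENNReal.toReal_ofNat, ENNReal.toReal_natCast] at h2
  have h3 : (covN n d : ℝ) = 2 * ∑ k ∈ range d, ((n - 1).choose k : ℝ) := by
    unfold covN
    rw [if_neg (by omega)]
    push_cast
    rfl
  rw [h3] at h2
  unfold W
  rw [le_div_iff₀ (by positivity)]
  have h4 : (2 : ℝ) ^ n = 2 ^ (n - 1) * 2 := by rw [← pow_succ]; congr 1; omega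
  rw [h4] at h2
  have h5 : (matM μ0 (Fin n) d).real (Out n d) = ((matM μ0 (Fin n) d) (Out n d)).toReal := rfl
  rw [h5]
  linarith

end Pool.Agent.Helper93K9.Wendel
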