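import Mathlib
import Pool.Agent.Helper93K9.Wendel.Low

/-!
# Rows and columns
-/

set_option autoImplicit false
set_option linter.unusedSectionVars false

namespace Pool.Agent.Helper93K9.Wendel

open MeasureTheory Finset Module

variable {μ0 : Measure ℝ} [IsProbabilityMeasure μ0]

theorem pi_curry (α β : Type) [Fintype α] [Fintype β] :
    (Measure.pi fun _ : α × β => μ0).map (fun x i j => x (i, j)) =
      Measure.pi fun _ : α => Measure.pi fun _ : β => μ0 := by
  have h := Measure.infinitePi_map_curry (ι := α) (κ := β) (X := ℝ) (fun _ _ => μ0)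
  rw [Measure.infinitePi_eq_pi] at h
  simp only [Measure.infinitePi_eq_pi] at h
  exact h

theorem pi_swap (α β : Type) [Fintype α] [Fintype β] :
    (Measure.pi fun _ : α × β => μ0).map (fun x (p : β × α) => x (p.2, p.1)) =
      Measure.pi fun _ : β × α => μ0 := by
  symm
  refine Measure.pi_eq fun s hs => ?_
  rw [Measure.map_apply (by fun_prop) (MeasurableSet.univ_pi hs)]
  have : (fun (x : α × β → ℝ) (p : β × α) => x (p.2, p.1)) ⁻¹' Set.univ.pi s =
      Set.univ.pi fun q : α × β => s (q.2, q.1) := by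
    ext x
    simp only [Set.mem_preimage, Set.mem_pi, Set.mem_univ, true_implies]
    constructor
    · intro h q
      exact h (q.2, q.1)
    · intro h p
      exact h (p.2, p.1)
  rw [this, Measure.pi_pi]
  rw [Fintype.prod_prod_type, Fintype.prod_prod_type_right]

/-- law of `n` independent vectors in `ℝ^d` with independent entries -/
noncomputable def vecM (μ0 : Measure ℝ) (n d : ℕ) : Measure (Fin n → Fin d → ℝ) :=
  Measure.pi fun _ : Fin n => Measure.pi fun _ : Fin d => μ0

instance (n d : ℕ) : IsProbabilityMeasure (vecM μ0 n d) := by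
  unfold vecM; infer_instance

theorem vec_transpose (n d : ℕ) :
    (vecM μ0 n d).map (fun x j i => x i j) = matM μ0 (Fin n) d := by
  unfold vecM matM
  rw [← pi_curry (μ0 := μ0) (Fin n) (Fin d), ← pi_curry (μ0 := μ0) (Fin d) (Fin n),
    ← pi_swap (μ0 := μ0) (Fin n) (Fin d), Measure.map_map (by fun_prop) (by fun_prop),
    Measure.map_map (by fun_prop) (by fun_prop)]
  rfl

/-- the probability that the origin is not in the convex hull of the vectors -/
noncomputable def Pr (μ0 : Measure ℝ) (n d : ℕ) : ℝ :=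
  (vecM μ0 n d).real {X | (0 : Fin d → ℝ) ∉ convexHull ℝ (Set.range X)}

theorem Pr_eq (n d : ℕ) : Pr μ0 n d = (matM μ0 (Fin n) d).real (Out n d) := by
  unfold Pr
  rw [← vec_transpose, map_measureReal_apply (by fun_prop) (isOpen_Out n d).measurableSet]
  rfl

/-- if the formula holds then no vector vanishes -/
theorem Pr_le_zero (n d : ℕ) (a : ℝ) (ha : μ0 {0} = ENNReal.ofReal a) (ha0 : 0 ≤ a) (ha1 : a ≤ 1) :
    Pr μ0 n d ≤ (1 - a ^ d) ^ n := by
  have h1 : {X : Fin n → Fin d → ℝ | (0 : Fin d → ℝ) ∉ convexHull ℝ (Set.range X)} ⊆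
      Set.univ.pi fun _ : Fin n => {v : Fin d → ℝ | v ≠ 0} := by
    intro X hX i _ hi
    exact hX (subset_convexHull ℝ _ ⟨i, hi⟩)
  have h2 : (vecM μ0 n d) (Set.univ.pi fun _ : Fin n => {v : Fin d → ℝ | v ≠ 0}) =
      ENNReal.ofReal ((1 - a ^ d) ^ n) := by
    unfold vecM
    rw [Measure.pi_pi, Finset.prod_const, Finset.card_univ, Fintype.card_fin,
      ENNReal.ofReal_pow (by linarith [pow_le_one₀ (n := d) ha0 ha1])]
    congr 1
    have h3 : {v : Fin d → ℝ | v ≠ 0} = {v : Fin d → ℝ | ∀ i ∈ (univ : Finset (Fin d)), v i = 0}ᶜ := by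
      ext v
      simp only [Set.mem_ofPred_eq, Set.mem_compl_iff, Finset.mem_univ, true_implies]
      exact not_congr funext_iff
    have hm : MeasurableSet {v : Fin d → ℝ | ∀ i ∈ (univ : Finset (Fin d)), v i = 0} := by
      have : {r : Fin d → ℝ | ∀ i ∈ (univ : Finset (Fin d)), r i = 0} =
          ⋂ i ∈ (univ : Finset (Fin d)), {r : Fin d → ℝ | r i = 0} := by
        ext r; simp
      rw [this]
      exact Finset.measurableSet_biInter _ fun i _ =>
        measurableSet_eq_fun (measurable_pi_apply i) measurable_const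
    rw [h3, prob_compl_eq_one_sub hm, measure_zero_on, Finset.card_univ, Fintype.card_fin, ha,
      ← ENNReal.ofReal_pow ha0, ENNReal.ofReal_sub _ (by positivity), ENNReal.ofReal_one]
  unfold Pr
  calc (vecM μ0 n d).real {X | (0 : Fin d → ℝ) ∉ convexHull ℝ (Set.range X)}
      ≤ (vecM μ0 n d).real (Set.univ.pi fun _ : Fin n => {v : Fin d → ℝ | v ≠ 0}) :=
        measureReal_mono h1
    _ = (1 - a ^ d) ^ n := by
        rw [measureReal_def, h2, ENNReal.toReal_ofReal]
        exact pow_nonneg (by linarith [pow_le_one₀ (n := d) ha0 ha1]) n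

theorem W_half (d : ℕ) (hd : 1 ≤ d) : W (2 * d) d = 1 / 2 := by
  obtain ⟨k, rfl⟩ := Nat.exists_eq_add_of_le hd
  unfold W
  have h1 : 2 * (1 + k) - 1 = 2 * k + 1 := by omega
  rw [h1]
  have h2 := Nat.sum_range_choose_halfway k
  have h3 : (∑ j ∈ range (1 + k), ((2 * k + 1).choose j : ℝ)) = 4 ^ k := by
    rw [add_comm 1 k]
    exact_mod_cast h2
  rw [h3, pow_succ, pow_mul]
  norm_num
  field_simp

end Pool.Agent.Helper93K9.Wendel
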