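import Mathlib
import Pool.Agent.Helper93K9.Wendel.Trans

/-!
# The asymptotic statements
-/

set_option autoImplicit false
set_option linter.unusedSectionVars false

namespace Pool.Agent.Helper93K9.Wendel

open MeasureTheory Finset Module Filter Topology

/-- the square of the normalised central binomial coefficient -/
theorem central_sq (m : ℕ) : (2 * m + 1 : ℝ) * ((2 * m).choose m : ℝ) ^ 2 ≤ (4 ^ m) ^ 2 := by
  induction m with
  | zero => simp
  | succ m ih =>
    have h := Nat.succ_mul_centralBinom_succ m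
    simp only [Nat.centralBinom_eq_two_mul_choose] at h
    have h' : ((m : ℝ) + 1) * ((2 * (m + 1)).choose (m + 1) : ℝ) =
        2 * (2 * m + 1) * ((2 * m).choose m : ℝ) := by exact_mod_cast h
    have hm : (0 : ℝ) < m + 1 := by positivity
    have h2 : ((2 * (m + 1)).choose (m + 1) : ℝ) = 2 * (2 * m + 1) * ((2 * m).choose m : ℝ) / (m + 1) := by
      field_simp
      linarith
    rw [h2]
    have h3 : (2 * ((m + 1 : ℕ) : ℝ) + 1) * (2 * (2 * m + 1) * ((2 * m).choose m : ℝ) / (m + 1)) ^ 2 =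
        ((2 * m + 1 : ℝ) * ((2 * m).choose m : ℝ) ^ 2) *
          (4 * (2 * m + 1) * (2 * m + 3) / (m + 1) ^ 2) := by
      push_cast
      field_simp
      ring
    rw [h3]
    have h4 : 4 * (2 * (m : ℝ) + 1) * (2 * m + 3) / (m + 1) ^ 2 ≤ 16 := by
      rw [div_le_iff₀ (by positivity)]
      nlinarith
    calc ((2 * m + 1 : ℝ) * ((2 * m).choose m : ℝ) ^ 2) * (4 * (2 * m + 1) * (2 * m + 3) / (m + 1) ^ 2)
        ≤ (4 ^ m) ^ 2 * 16 := by
          refine mul_le_mul ih h4 (by positivity) (by positivity)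
      _ = (4 ^ (m + 1)) ^ 2 := by ring

theorem choose_sq (N k : ℕ) : ((N : ℝ) + 1) * (N.choose k : ℝ) ^ 2 ≤ (2 ^ N) ^ 2 := by
  have h1 : (N.choose k : ℝ) ≤ (N.choose (N / 2) : ℝ) := by exact_mod_cast Nat.choose_le_middle k N
  have h2 : ((N : ℝ) + 1) * (N.choose (N / 2) : ℝ) ^ 2 ≤ (2 ^ N) ^ 2 := by
    rcases Nat.even_or_odd' N with ⟨m, rfl | rfl⟩
    · have := central_sq m
      rw [Nat.mul_div_cancel_left m (by norm_num), pow_mul]
      push_cast
      norm_num at this ⊢
      exact this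
    · have h3 : (2 * m + 1) / 2 = m := by omega
      rw [h3]
      have h4 := central_sq (m + 1)
      have h5 : ((2 * (m + 1)).choose (m + 1) : ℝ) = 2 * ((2 * m + 1).choose m : ℝ) := by
        have h6 : (2 * (m + 1)).choose (m + 1) = (2 * m + 1).choose m + (2 * m + 1).choose (m + 1) := by
          rw [show 2 * (m + 1) = (2 * m + 1) + 1 by ring, Nat.choose_succ_succ]
        have h7 : (2 * m + 1).choose (m + 1) = (2 * m + 1).choose m := by
          rw [← Nat.choose_symm_half m]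
        rw [h6, h7]
        push_cast
        ring
      rw [h5] at h4
      push_cast at h4 ⊢
      have h8 : ((4 : ℝ) ^ (m + 1)) ^ 2 = 4 * (2 ^ (2 * m + 1)) ^ 2 := by
        have : (4 : ℝ) = 2 ^ 2 := by norm_num
        rw [this, ← pow_mul, ← pow_mul, ← pow_mul, ← pow_add]
        congr 1
        ring
      rw [h8] at h4
      have h9 : (0 : ℝ) ≤ ((2 * m + 1).choose m : ℝ) ^ 2 := by positivity
      nlinarith
  have h3 : (N.choose k : ℝ) ^ 2 ≤ (N.choose (N / 2) : ℝ) ^ 2 := pow_le_pow_left₀ (by positivity) h1 2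
  have h4 : (0 : ℝ) ≤ (N : ℝ) + 1 := by positivity
  nlinarith [mul_le_mul_of_nonneg_left h3 h4]

theorem choose_le_sqrt (N k D : ℕ) (hD : 1 ≤ D) (hN : D ≤ N + 1) :
    (N.choose k : ℝ) / 2 ^ N ≤ 1 / Real.sqrt D := by
  have hD0 : (0 : ℝ) < D := by exact_mod_cast hD
  rw [div_le_div_iff₀ (by positivity) (Real.sqrt_pos.2 hD0), one_mul]
  have h1 := choose_sq N k
  have h2 : (N.choose k : ℝ) * Real.sqrt D = Real.sqrt ((D : ℝ) * (N.choose k : ℝ) ^ 2) := by
    rw [Real.sqrt_mul hD0.le, Real.sqrt_sq (by positivity)]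
    ring
  rw [h2]
  rw [Real.sqrt_le_left (by positivity)]
  have h3 : (D : ℝ) ≤ (N : ℝ) + 1 := by exact_mod_cast hN
  have h4 : (0 : ℝ) ≤ (N.choose k : ℝ) ^ 2 := by positivity
  nlinarith

/-- the difference between Wendel's number and the truncated binomial sum -/
theorem W_sub_le (n D m : ℕ) (hn : 1 ≤ n) (hD : 1 ≤ D) :
    W n (D + m) - (∑ k ∈ range D, (n.choose k : ℝ)) / 2 ^ n ≤ (m + 1) / Real.sqrt D := by
  obtain ⟨N, rfl⟩ := Nat.exists_eq_add_of_le' hn
  obtain ⟨D', rfl⟩ := Nat.exists_eq_add_of_le' hD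
  unfold W
  rw [Nat.add_sub_cancel]
  have h1 : 2 * ∑ k ∈ range D', (N.choose k : ℝ) ≤ ∑ k ∈ range (D' + 1), ((N + 1).choose k : ℝ) := by
    rw [Finset.sum_range_succ']
    have : ∀ k, ((N + 1).choose (k + 1) : ℝ) = (N.choose k : ℝ) + (N.choose (k + 1) : ℝ) := by
      intro k
      rw [Nat.choose_succ_succ]; push_cast; rfl
    simp only [this, Finset.sum_add_distrib, Nat.choose_zero_right]
    have h2 : ∑ k ∈ range D', (N.choose k : ℝ) ≤ ∑ k ∈ range D', (N.choose (k + 1) : ℝ) + 1 := by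
      have h3 := Finset.sum_range_succ' (fun k => (N.choose k : ℝ)) D'
      have h4 := Finset.sum_range_succ (fun k => (N.choose k : ℝ)) D'
      simp only [Nat.choose_zero_right] at h3
      have h5 : (0 : ℝ) ≤ (N.choose D' : ℝ) := Nat.cast_nonneg _
      push_cast at h3
      linarith
    push_cast
    linarith
  have h2 : (∑ k ∈ range D', (N.choose k : ℝ)) / 2 ^ N ≤
      (∑ k ∈ range (D' + 1), ((N + 1).choose k : ℝ)) / 2 ^ (N + 1) := by
    rw [div_le_div_iff₀ (by positivity) (by positivity), pow_succ]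
    have : (0 : ℝ) < 2 ^ N := by positivity
    nlinarith
  have h3 : ∑ k ∈ range (D' + 1 + m), (N.choose k : ℝ) =
      ∑ k ∈ range D', (N.choose k : ℝ) + ∑ j ∈ range (m + 1), (N.choose (D' + j) : ℝ) := by
    rw [show D' + 1 + m = D' + (m + 1) by ring, Finset.sum_range_add]
  rw [h3, add_div]
  have h4 : (∑ j ∈ range (m + 1), (N.choose (D' + j) : ℝ)) / 2 ^ N ≤
      (m + 1) / Real.sqrt ((D' + 1 : ℕ) : ℝ) := by
    rw [Finset.sum_div]
    calc ∑ j ∈ range (m + 1), (N.choose (D' + j) : ℝ) / 2 ^ N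
        ≤ ∑ j ∈ range (m + 1), 1 / Real.sqrt ((D' + 1 : ℕ) : ℝ) := by
          refine Finset.sum_le_sum fun j _ => ?_
          by_cases hN : D' ≤ N
          · exact choose_le_sqrt N (D' + j) (D' + 1) (by omega) (by omega)
          · rw [Nat.choose_eq_zero_of_lt (by omega)]
            simp
      _ = (m + 1) / Real.sqrt ((D' + 1 : ℕ) : ℝ) := by
          rw [Finset.sum_const, Finset.card_range, nsmul_eq_mul]
          push_cast
          ring
  linarith

theorem W_le_pow (n d : ℕ) (hn : 3 * d + 1 ≤ n) : W n d ≤ (27 / 32) ^ d := by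
  obtain ⟨N, rfl⟩ := Nat.exists_eq_add_of_le' (show 1 ≤ n by omega)
  unfold W
  rw [Nat.add_sub_cancel]
  have hN : 3 * d ≤ N := by omega
  have h1 : ∑ k ∈ range d, (N.choose k : ℝ) ≤ 2 ^ d * (3 / 2) ^ N := by
    have h2 : (3 / 2 : ℝ) ^ N = ∑ k ∈ range (N + 1), (N.choose k : ℝ) * (1 / 2) ^ k := by
      rw [full_sum]; norm_num
    rw [h2, Finset.mul_sum]
    calc ∑ k ∈ range d, (N.choose k : ℝ)
        ≤ ∑ k ∈ range d, 2 ^ d * ((N.choose k : ℝ) * (1 / 2) ^ k) := by
          refine Finset.sum_le_sum fun k hk => ?_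
          rw [Finset.mem_range] at hk
          have h3 : (1 : ℝ) ≤ 2 ^ d * (1 / 2) ^ k := by
            obtain ⟨j, rfl⟩ := Nat.exists_eq_add_of_le hk.le
            rw [pow_add, one_div, inv_pow]
            have : (1 : ℝ) ≤ 2 ^ j := one_le_pow₀ (by norm_num)
            field_simp
            exact this
          have h4 : (0 : ℝ) ≤ (N.choose k : ℝ) := Nat.cast_nonneg _
          nlinarith
      _ ≤ ∑ k ∈ range (N + 1), 2 ^ d * ((N.choose k : ℝ) * (1 / 2) ^ k) := by
          refine Finset.sum_le_sum_of_subset_of_nonneg ?_ fun k _ _ => by positivity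
          intro k hk
          rw [Finset.mem_range] at hk ⊢
          omega
  rw [div_le_iff₀ (by positivity)]
  refine h1.trans ?_
  have h5 : (3 / 4 : ℝ) ^ N ≤ (3 / 4) ^ (3 * d) := pow_le_pow_of_le_one (by norm_num) (by norm_num) hN
  have h6 : (3 / 2 : ℝ) ^ N = (3 / 4) ^ N * 2 ^ N := by rw [← mul_pow]; norm_num
  rw [h6]
  calc 2 ^ d * ((3 / 4 : ℝ) ^ N * 2 ^ N) ≤ 2 ^ d * ((3 / 4) ^ (3 * d) * 2 ^ N) := by gcongr
    _ = (27 / 32) ^ d * 2 ^ N := by
        rw [pow_mul, ← mul_assoc, ← mul_pow]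
        norm_num

theorem W_nonneg (n d : ℕ) : 0 ≤ W n d := by
  unfold W; positivity

theorem binom_part_le (n D : ℕ) : (∑ k ∈ range D, (n.choose k : ℝ)) / 2 ^ n ≤ 1 := by
  rw [div_le_one (by positivity)]
  have h : (∑ k ∈ range D, n.choose k) ≤ 2 ^ n := by
    have := card_lt n D
    rw [← this]
    refine (Finset.card_le_univ _).trans ?_
    simp
  exact_mod_cast h

end Pool.Agent.Helper93K9.Wendel
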