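import Mathlib
import Pool.Agent.Helper93K9.Wendel.Lim

/-!
# Sharp threshold for the Wendel formula
-/

set_option autoImplicit false
set_option linter.unusedSectionVars false

namespace Pool.Agent.Helper93K9.Wendel

open MeasureTheory Finset Module Filter Topology

theorem tendsto_log_nat : Tendsto (fun d : ℕ => Real.log d) atTop atTop :=
  Real.tendsto_log_atTop.comp tendsto_natCast_atTop_atTop

theorem tendsto_sqrt_nat : Tendsto (fun d : ℕ => Real.sqrt d) atTop atTop :=
  Real.tendsto_sqrt_atTop.comp tendsto_natCast_atTop_atTop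

/-- the second error term -/
theorem lim_T2 (c θ : ℝ) (hc : 0 < c) (hθ : θ < 1) :
    Tendsto (fun s : ℝ => s ^ 2 * Real.exp (-(c * s) + s ^ θ)) atTop (𝓝 0) := by
  have h1 : ∀ᶠ s : ℝ in atTop, s ^ θ ≤ c / 2 * s := by
    have h2 : Tendsto (fun s : ℝ => s ^ (θ - 1)) atTop (𝓝 0) := by
      have := tendsto_rpow_neg_atTop (y := 1 - θ) (by linarith)
      simpa [neg_sub] using this
    filter_upwards [h2.eventually_le_const (show (0 : ℝ) < c / 2 by linarith),
      eventually_gt_atTop 0] with s hs hs0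
    have h3 : s ^ θ = s ^ (θ - 1) * s := by
      rw [Real.rpow_sub_one hs0.ne']
      field_simp
    rw [h3]
    exact mul_le_mul_of_nonneg_right hs hs0.le
  have h2 : Tendsto (fun s : ℝ => s ^ 2 * Real.exp (-(c / 2 * s))) atTop (𝓝 0) := by
    have h3 := Real.tendsto_pow_mul_exp_neg_atTop_nhds_zero 2
    have h4 : Tendsto (fun s : ℝ => c / 2 * s) atTop atTop :=
      tendsto_id.const_mul_atTop (by linarith)
    have h5 := (h3.comp h4).const_mul ((c / 2) ^ 2)⁻¹
    rw [mul_zero] at h5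
    refine h5.congr fun s => ?_
    simp only [Function.comp]
    field_simp
  refine squeeze_zero' ?_ ?_ h2
  · filter_upwards with s
    positivity
  · filter_upwards [h1] with s hs
    have : Real.exp (-(c * s) + s ^ θ) ≤ Real.exp (-(c / 2 * s)) := Real.exp_le_exp.2 (by linarith)
    exact mul_le_mul_of_nonneg_left this (by positivity)

theorem num1 (ε : ℝ) (h0 : 0 < ε) (h1 : ε ≤ 1) :
    1 + ε / 2 ≤ (1 - ε / 8) * (1 - ε / 8) * (1 + ε) := by
  have a1 : 0 ≤ ε * (1 - ε) := mul_nonneg h0.le (by linarith)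
  have a2 : 0 ≤ ε * ε * ε := by positivity
  nlinarith

theorem num2 (ε : ℝ) (h0 : 0 < ε) (h1 : ε ≤ 1) :
    1 / 2 + ε / 8 ≤ (1 - ε / 8) * (1 + ε) * (1 / 2 - ε / 8) := by
  have a1 : 0 ≤ ε * (1 - ε) := mul_nonneg h0.le (by linarith)
  have a2 : 0 ≤ ε * ε * ε := by positivity
  nlinarith

/-- the formula holds above the threshold, uniformly -/
theorem upper_side (ε η : ℝ) (hε : 0 < ε) (hε1 : ε ≤ 1) (hη : 0 < η) :
    ∃ d0 : ℕ, ∀ d : ℕ, d0 ≤ d → ∀ (μ0 : Measure ℝ) [IsProbabilityMeasure μ0],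
      MeasurePreserving (Neg.neg : ℝ → ℝ) μ0 μ0 → ∀ a : ℝ, 0 ≤ a → μ0 {0} = ENNReal.ofReal a →
      (1 + ε) * Real.log d / d ≤ 1 - a → ∀ n : ℕ, 1 ≤ n → |Pr μ0 n d - W n d| ≤ η := by
  set δ := ε / 8 with hδ
  have hδ0 : 0 < δ := by positivity
  have hδ1 : δ ≤ 1 / 8 := by rw [hδ]; linarith
  obtain ⟨τ, s, hτ, hs, hts⟩ := exists_tau δ hδ0
  set ρ := (3 + Real.exp (-δ)) / 4 with hρ
  have hρ0 : 0 < ρ := by positivity
  have hρ1 : ρ < 1 := by
    have : Real.exp (-δ) < 1 := by rw [Real.exp_lt_one_iff]; linarith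
    rw [hρ]; linarith
  set c1 := -Real.log ρ with hc1
  have hc1' : 0 < c1 := neg_pos.2 (Real.log_neg hρ0 hρ1)
  set κ := η / 4 with hκ
  have hκ0 : 0 < κ := by positivity
  -- the error terms
  have l1 : Tendsto (fun d : ℕ => Real.exp (3 * Real.exp (-(ε / 2 * Real.log d))) - 1) atTop (𝓝 0) := by
    have h1 : Tendsto (fun d : ℕ => Real.exp (-(ε / 2 * Real.log d))) atTop (𝓝 0) :=
      Real.tendsto_exp_neg_atTop_nhds_zero.comp (tendsto_log_nat.const_mul_atTop (by positivity))
    have h2 := ((Real.continuous_exp.tendsto _).comp (h1.const_mul 3)).sub_const 1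
    simpa using h2
  have l2 : Tendsto (fun d : ℕ => 12 * (Real.sqrt d ^ 2 *
      Real.exp (-(c1 * κ * Real.sqrt d) + Real.sqrt d ^ (1 - ε / 4)))) atTop (𝓝 0) := by
    have := ((lim_T2 (c1 * κ) (1 - ε / 4) (by positivity) (by linarith)).comp
      tendsto_sqrt_nat).const_mul 12
    simpa using this
  have l3 : Tendsto (fun d : ℕ => 2 * κ + 4 / Real.sqrt d) atTop (𝓝 (2 * κ + 0)) :=
    tendsto_const_nhds.add (tendsto_sqrt_nat.const_div_atTop 4)
  have l4 : Tendsto (fun d : ℕ => (27 / 32 : ℝ) ^ d) atTop (𝓝 0) :=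
    tendsto_pow_atTop_nhds_zero_of_lt_one (by norm_num) (by norm_num)
  have l5 : Tendsto (fun d : ℕ => Real.exp (-(2 * δ ^ 2)) *
      (1 + Real.exp (-(τ / 2 * Real.log d)))) atTop (𝓝 (Real.exp (-(2 * δ ^ 2)) * (1 + 0))) := by
    have h1 : Tendsto (fun d : ℕ => Real.exp (-(τ / 2 * Real.log d))) atTop (𝓝 0) :=
      Real.tendsto_exp_neg_atTop_nhds_zero.comp (tendsto_log_nat.const_mul_atTop (by positivity))
    exact (h1.const_add 1).const_mul _
  have l6 : ∀ᶠ d : ℕ in atTop, κ * Real.sqrt d + 1 ≤ δ * d := by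
    have h1 : Tendsto (fun d : ℕ => δ * Real.sqrt d - κ) atTop atTop :=
      tendsto_atTop_add_const_right _ _ (tendsto_sqrt_nat.const_mul_atTop hδ0)
    filter_upwards [h1.eventually_ge_atTop 1, tendsto_sqrt_nat.eventually_ge_atTop 1] with d h2 h3
    have h4 : (d : ℝ) = Real.sqrt d * Real.sqrt d := (Real.mul_self_sqrt (Nat.cast_nonneg d)).symm
    nlinarith
  have e1 := l1.eventually_le_const (show (0 : ℝ) < η / 8 by positivity)
  have e2 := l2.eventually_le_const (show (0 : ℝ) < η / 8 by positivity)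
  have e3 := l3.eventually_le_const (show 2 * κ + 0 < 3 * κ by linarith)
  have e4 := l4.eventually_le_const hη
  have e5 := l5.eventually_le_const (show Real.exp (-(2 * δ ^ 2)) * (1 + 0) < 1 by
    rw [add_zero, mul_one, Real.exp_lt_one_iff]
    have : 0 < δ ^ 2 := by positivity
    linarith)
  obtain ⟨d0, hd0⟩ := Filter.eventually_atTop.1 ((((((e1.and e2).and e3).and e4).and e5).and l6).and
    (eventually_ge_atTop 3))
  refine ⟨d0, fun d hd μ0 _ hsym a ha0 ha hq n hn => ?_⟩
  obtain ⟨⟨⟨⟨⟨⟨h1, h2⟩, h3⟩, h4⟩, h5⟩, h6⟩, h7⟩ := hd0 d hd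
  set L := Real.log d with hL
  set q := 1 - a with hqd
  have hdR : (3 : ℝ) ≤ d := by exact_mod_cast h7
  have hd_pos : (0 : ℝ) < d := by linarith
  have hL0 : 0 < L := Real.log_pos (by linarith)
  have hl0 : 0 < (1 + ε) * L / d := by positivity
  have hq0 : 0 < q := lt_of_lt_of_le hl0 hq
  have ha1 : a ≤ 1 := by linarith
  have hsq : Real.sqrt d * Real.sqrt d = d := Real.mul_self_sqrt hd_pos.le
  have hs0 : 0 < Real.sqrt d := Real.sqrt_pos.2 hd_pos
  -- upper bound
  have hup : Pr μ0 n d ≤ W n d := by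
    rw [Pr_eq]
    exact prob_upper hsym n d hn
  have hPr0 : 0 ≤ Pr μ0 n d := measureReal_nonneg
  rw [abs_sub_comm, abs_of_nonneg (by linarith)]
  by_cases hbig : 3 * d + 1 ≤ n
  · have := W_le_pow n d hbig
    linarith
  have hn3 : (n : ℝ) ≤ 3 * d := by
    have : n ≤ 3 * d := by omega
    exact_mod_cast this
  -- parameters
  set m := ⌈κ * Real.sqrt d⌉₊ with hm
  have hm1 : κ * Real.sqrt d ≤ m := Nat.le_ceil _
  have hm2 : (m : ℝ) < κ * Real.sqrt d + 1 := Nat.ceil_lt_add_one (by positivity)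
  have hmd : (m : ℝ) ≤ δ * d := by linarith
  have hmd' : m ≤ d := by
    have : (m : ℝ) ≤ d := by nlinarith
    exact_mod_cast this
  obtain ⟨D, hD⟩ := Nat.exists_eq_add_of_le hmd'
  have hDm : D + m = d := by omega
  have hDR : (D : ℝ) = d - m := by
    have : (D : ℝ) + m = d := by exact_mod_cast hDm
    linarith
  have hD1 : (1 - δ) * d ≤ D := by rw [hDR]; linarith
  have hD2 : (D : ℝ) ≤ d := by rw [hDR]; linarith [(Nat.cast_nonneg m : (0 : ℝ) ≤ m)]
  have hD3 : 1 ≤ D := by
    have : (0 : ℝ) < D := by nlinarith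
    exact_mod_cast this
  set K := ⌊δ / q⌋₊ + 1 with hK
  have hK1 : ∀ c : ℕ, c < K → c * q ≤ δ := by
    intro c hc
    have : c ≤ ⌊δ / q⌋₊ := by omega
    have h8 : (c : ℝ) ≤ δ / q := (Nat.le_floor_iff (by positivity)).1 this
    rwa [le_div_iff₀ hq0] at h8
  have hK2 : δ ≤ K * q := by
    have h8 := Nat.lt_floor_add_one (δ / q)
    rw [div_lt_iff₀ hq0] at h8
    rw [hK]
    push_cast
    exact h8.le
  have hlow := prob_lower hsym n K D m a q δ ha ha0 rfl hq0 hK1 hK2
  rw [hDm, ← Pr_eq] at hlow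
  have hW := W_sub_le n D m hn hD3
  rw [hDm] at hW
  set S := (∑ k ∈ range D, (n.choose k : ℝ)) / 2 ^ n with hS
  have hS1 : S ≤ 1 := binom_part_le n D
  have hS0 : 0 ≤ S := by rw [hS]; positivity
  -- first error
  have hT1 : (1 + Real.exp (-((1 - δ) * q * D))) ^ n - 1 ≤ η / 8 := by
    refine le_trans ?_ h1
    have hy : Real.exp (-((1 - δ) * q * D)) ≤ Real.exp (-((1 + ε / 2) * L)) := by
      refine Real.exp_le_exp.2 (neg_le_neg ?_)
      have g1 : (1 + ε) * L ≤ q * d := by
        have := mul_le_mul_of_nonneg_right hq hd_pos.le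
        rwa [div_mul_cancel₀ _ hd_pos.ne'] at this
      have g2 : (1 - δ) * q * ((1 - δ) * d) ≤ (1 - δ) * q * D := by
        refine mul_le_mul_of_nonneg_left hD1 ?_
        have : 0 ≤ 1 - δ := by linarith
        positivity
      have g3 : (1 + ε / 2) ≤ (1 - δ) * (1 - δ) * (1 + ε) := num1 ε hε hε1
      have g4 : (1 + ε / 2) * L ≤ (1 - δ) * (1 - δ) * (1 + ε) * L :=
        mul_le_mul_of_nonneg_right g3 hL0.le
      have g5 : (1 - δ) * (1 - δ) * ((1 + ε) * L) ≤ (1 - δ) * (1 - δ) * (q * d) := by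
        refine mul_le_mul_of_nonneg_left g1 ?_
        have : 0 ≤ 1 - δ := by linarith
        positivity
      linarith
    have hdexp : (d : ℝ) = Real.exp L := (Real.exp_log hd_pos).symm
    have hny : (n : ℝ) * Real.exp (-((1 - δ) * q * D)) ≤ 3 * Real.exp (-(ε / 2 * L)) := by
      calc (n : ℝ) * Real.exp (-((1 - δ) * q * D)) ≤ (3 * d) * Real.exp (-((1 + ε / 2) * L)) := by
            gcongr
        _ = 3 * (Real.exp L * Real.exp (-((1 + ε / 2) * L))) := by rw [mul_assoc, ← hdexp]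
        _ = 3 * Real.exp (-(ε / 2 * L)) := by
            rw [← Real.exp_add]; congr 2; ring
    have hpow : (1 + Real.exp (-((1 - δ) * q * D))) ^ n ≤
        Real.exp (n * Real.exp (-((1 - δ) * q * D))) := by
      rw [Real.exp_nat_mul]
      have g6 := Real.add_one_le_exp (Real.exp (-((1 - δ) * q * D)))
      exact pow_le_pow_left₀ (by positivity) (by linarith) n
    have := hpow.trans (Real.exp_le_exp.2 hny)
    linarith
  -- second error
  have hT2 : n * (ρ ^ m * FD D a) ≤ η / 8 := by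
    refine le_trans ?_ h2
    set l := (1 + ε) * L / d with hl
    set z' := Real.exp (-(l * ((1 / 2 - δ) * D))) with hz'
    have hal : a ≤ Real.exp (-l) := by
      have g1 := Real.add_one_le_exp (-q)
      have g2 : Real.exp (-q) ≤ Real.exp (-l) := Real.exp_le_exp.2 (by linarith)
      rw [hqd] at g1 g2
      rw [hqd] at hq
      linarith
    have hlD : ∀ t : ℝ, 0 ≤ t → (1 - δ) * ((1 + ε) * L) * t ≤ l * (t * D) := by
      intro t ht
      have g1 : l * d = (1 + ε) * L := by rw [hl]; field_simp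
      have g2 : l * ((1 - δ) * d) ≤ l * D := mul_le_mul_of_nonneg_left hD1 hl0.le
      have g3 : l * ((1 - δ) * d) = (1 - δ) * ((1 + ε) * L) := by rw [← g1]; ring
      rw [g3] at g2
      have g4 := mul_le_mul_of_nonneg_right g2 ht
      linarith
    have hFD := FD_le D a l δ τ s z' ha0 hal hl0.le hδ0 hδ1 rfl hs.le hts (by
      refine le_trans ?_ h5
      refine mul_le_mul_of_nonneg_left ?_ (Real.exp_pos _).le
      refine add_le_add_right (Real.exp_le_exp.2 (neg_le_neg ?_)) 1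
      refine le_trans ?_ (hlD τ hτ.le)
      have g1 : (1 : ℝ) / 2 ≤ (1 - δ) * (1 + ε) := by nlinarith
      have g2 : 0 ≤ L * τ := by positivity
      nlinarith)
    have hDz : D * z' ≤ Real.sqrt d ^ (1 - ε / 4) := by
      have g1 : z' ≤ Real.exp (-((1 / 2 + ε / 8) * L)) := by
        rw [hz']
        refine Real.exp_le_exp.2 (neg_le_neg ?_)
        refine le_trans ?_ (hlD (1 / 2 - δ) (by linarith))
        have g2 : 1 / 2 + ε / 8 ≤ (1 - δ) * (1 + ε) * (1 / 2 - δ) := num2 ε hε hε1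
        have g3 := mul_le_mul_of_nonneg_right g2 hL0.le
        linarith
      have g4 : Real.sqrt d ^ (1 - ε / 4) = Real.exp ((1 / 2 - ε / 8) * L) := by
        rw [Real.sqrt_eq_rpow, ← Real.rpow_mul hd_pos.le, Real.rpow_def_of_pos hd_pos]
        congr 1
        rw [← hL]; ring
      calc (D : ℝ) * z' ≤ d * Real.exp (-((1 / 2 + ε / 8) * L)) := by
            have : 0 < z' := Real.exp_pos _
            gcongr
        _ = Real.exp L * Real.exp (-((1 / 2 + ε / 8) * L)) := by
            rw [hL, Real.exp_log hd_pos]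
        _ = Real.sqrt d ^ (1 - ε / 4) := by
            rw [g4, ← Real.exp_add]; congr 1; ring
    have hFD2 : FD D a ≤ 4 * Real.exp (Real.sqrt d ^ (1 - ε / 4)) := by
      have g1 : Real.exp (D * z') ≤ Real.exp (Real.sqrt d ^ (1 - ε / 4)) := Real.exp_le_exp.2 hDz
      have g2 : 1 ≤ Real.exp (Real.sqrt d ^ (1 - ε / 4)) := Real.one_le_exp (by positivity)
      linarith
    have hρm : ρ ^ m ≤ Real.exp (-(c1 * κ * Real.sqrt d)) := by
      have g1 : ρ = Real.exp (-c1) := by rw [hc1, neg_neg, Real.exp_log hρ0]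
      rw [g1, ← Real.exp_nat_mul]
      refine Real.exp_le_exp.2 ?_
      nlinarith
    have hFD0 : 0 ≤ FD D a := Finset.sum_nonneg fun w _ => by positivity
    calc (n : ℝ) * (ρ ^ m * FD D a)
        ≤ (3 * d) * (Real.exp (-(c1 * κ * Real.sqrt d)) *
            (4 * Real.exp (Real.sqrt d ^ (1 - ε / 4)))) := by
          gcongr
      _ = 12 * (Real.sqrt d ^ 2 *
            Real.exp (-(c1 * κ * Real.sqrt d) + Real.sqrt d ^ (1 - ε / 4))) := by
          rw [Real.exp_add, Real.sq_sqrt hd_pos.le]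
          ring
  -- third error
  have hT3 : ((m : ℝ) + 1) / Real.sqrt D ≤ 3 * κ := by
    refine le_trans ?_ h3
    have g1 : Real.sqrt d / 2 ≤ Real.sqrt D := by
      have g2 : Real.sqrt (d / 4) ≤ Real.sqrt D := by
        refine Real.sqrt_le_sqrt ?_
        nlinarith
      have g3 : Real.sqrt ((d : ℝ) / 4) = Real.sqrt d / 2 := by
        rw [Real.sqrt_div hd_pos.le]
        congr 1
        rw [show (4 : ℝ) = 2 ^ 2 by norm_num, Real.sqrt_sq (by norm_num)]
      rwa [g3] at g2
    calc ((m : ℝ) + 1) / Real.sqrt D ≤ (κ * Real.sqrt d + 2) / (Real.sqrt d / 2) := by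
          refine div_le_div₀ (by positivity) (by linarith) (by positivity) g1
      _ = 2 * κ + 4 / Real.sqrt d := by
          field_simp
          ring
  have hSl : S * (1 - ((1 + Real.exp (-((1 - δ) * q * D))) ^ n - 1) - n * (ρ ^ m * FD D a)) ≥
      S - (η / 8 + η / 8) := by
    have g1 : 0 ≤ η / 8 + η / 8 := by positivity
    have g2 := mul_le_mul_of_nonneg_left (add_le_add hT1 hT2) hS0
    have g3 := mul_le_mul_of_nonneg_right hS1 g1
    have g4 : S * (1 - ((1 + Real.exp (-((1 - δ) * q * D))) ^ n - 1) - n * (ρ ^ m * FD D a)) =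
        S - S * (((1 + Real.exp (-((1 - δ) * q * D))) ^ n - 1) + n * (ρ ^ m * FD D a)) := by ring
    rw [g4]
    linarith
  have : S * (1 - ((1 + Real.exp (-((1 - δ) * q * D))) ^ n - 1) - n * (ρ ^ m * FD D a)) ≤
      Pr μ0 n d := hlow
  rw [hκ] at hT3
  linarith

/-- below the threshold the probability tends to zero for `n = 2 d`, uniformly -/
theorem lower_side (ε η : ℝ) (hε : 0 < ε) (hη : 0 < η) :
    ∃ d0 : ℕ, ∀ d : ℕ, d0 ≤ d → ∀ (μ0 : Measure ℝ) [IsProbabilityMeasure μ0],
      ∀ a : ℝ, 0 ≤ a → a ≤ 1 → μ0 {0} = ENNReal.ofReal a →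
      1 - a ≤ (1 - ε) * Real.log d / d → Pr μ0 (2 * d) d ≤ η := by
  have l1 : Tendsto (fun d : ℕ => Real.exp (-(Real.exp (ε * Real.log d)))) atTop (𝓝 0) :=
    Real.tendsto_exp_neg_atTop_nhds_zero.comp
      (Real.tendsto_exp_atTop.comp (tendsto_log_nat.const_mul_atTop hε))
  have l2 : Tendsto (fun d : ℕ => Real.log d ^ 2 / d) atTop (𝓝 0) := by
    have h : Tendsto (fun x : ℝ => Real.log x ^ 2 / x) atTop (𝓝 0) := by
      have := Real.tendsto_pow_log_div_mul_add_atTop 1 0 2 one_ne_zero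
      simpa using this
    exact h.comp tendsto_natCast_atTop_atTop
  have l3 : Tendsto (fun d : ℕ => Real.log d / d) atTop (𝓝 0) := by
    have h : Tendsto (fun x : ℝ => Real.log x / x) atTop (𝓝 0) := by
      have := Real.tendsto_pow_log_div_mul_add_atTop 1 0 1 one_ne_zero
      simpa using this
    exact h.comp tendsto_natCast_atTop_atTop
  have e1 := l1.eventually_le_const hη
  have e2 := l2.eventually_le_const (show (0 : ℝ) < 1 / 4 by norm_num)
  have e3 := l3.eventually_le_const (show (0 : ℝ) < 1 / 2 by norm_num)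
  obtain ⟨d0, hd0⟩ := Filter.eventually_atTop.1 (((e1.and e2).and e3).and (eventually_ge_atTop 3))
  refine ⟨d0, fun d hd μ0 _ a ha0 ha1 ha hq => ?_⟩
  obtain ⟨⟨⟨h1, h2⟩, h3⟩, h4⟩ := hd0 d hd
  have hdR : (3 : ℝ) ≤ d := by exact_mod_cast h4
  have hd_pos : (0 : ℝ) < d := by linarith
  set L := Real.log d with hL
  have hL0 : 0 < L := Real.log_pos (by linarith)
  refine (Pr_le_zero (2 * d) d a ha ha0 ha1).trans (le_trans ?_ h1)
  set q := 1 - a with hqd
  have hq0 : 0 ≤ q := by linarith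
  have hqL : q ≤ L / d := by
    refine hq.trans ?_
    refine div_le_div_of_nonneg_right ?_ hd_pos.le
    nlinarith
  have hq2 : q ≤ 1 / 2 := hqL.trans h3
  -- a ^ d is large
  have hlow : Real.exp (-((1 - ε) * L) - 1 / 2) ≤ a ^ d := by
    have g1 : Real.exp (-q - 2 * q ^ 2) ≤ a := by
      -- log (1 - q) ≥ - q - 2 q^2
      have g2 : Real.exp (q + 2 * q ^ 2) * (1 - q) ≥ 1 := by
        have g3 := Real.add_one_le_exp (q + 2 * q ^ 2)
        have g4 : 0 ≤ 1 - q := by linarith
        have g5 : (q + 2 * q ^ 2 + 1) * (1 - q) ≥ 1 := by nlinarith [mul_nonneg hq0 hq0]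
        nlinarith [mul_le_mul_of_nonneg_right g3 g4]
      have g6 : Real.exp (-q - 2 * q ^ 2) * (Real.exp (q + 2 * q ^ 2) * (1 - q)) = a := by
        rw [← mul_assoc, ← Real.exp_add]
        have : -q - 2 * q ^ 2 + (q + 2 * q ^ 2) = 0 := by ring
        rw [this, Real.exp_zero, hqd]
        ring
      calc Real.exp (-q - 2 * q ^ 2) = Real.exp (-q - 2 * q ^ 2) * 1 := by ring
        _ ≤ Real.exp (-q - 2 * q ^ 2) * (Real.exp (q + 2 * q ^ 2) * (1 - q)) := by gcongr
        _ = a := g6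
    calc Real.exp (-((1 - ε) * L) - 1 / 2) ≤ Real.exp (d * (-q - 2 * q ^ 2)) := by
          refine Real.exp_le_exp.2 ?_
          have g7 : q * d ≤ (1 - ε) * L := by
            have := mul_le_mul_of_nonneg_right hq hd_pos.le
            rwa [div_mul_cancel₀ _ hd_pos.ne'] at this
          have g8 : (d : ℝ) * q ^ 2 ≤ L ^ 2 / d := by
            have := pow_le_pow_left₀ hq0 hqL 2
            calc (d : ℝ) * q ^ 2 ≤ d * (L / d) ^ 2 := by gcongr
              _ = L ^ 2 / d := by field_simp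
          nlinarith
      _ = Real.exp (-q - 2 * q ^ 2) ^ d := by rw [← Real.exp_nat_mul]
      _ ≤ a ^ d := pow_le_pow_left₀ (Real.exp_pos _).le g1 d
  have hb : 1 - a ^ d ≤ Real.exp (-(a ^ d)) := by
    have := Real.add_one_le_exp (-(a ^ d))
    linarith
  have hb0 : 0 ≤ 1 - a ^ d := by linarith [pow_le_one₀ (n := d) ha0 ha1]
  calc (1 - a ^ d) ^ (2 * d) ≤ Real.exp (-(a ^ d)) ^ (2 * d) := pow_le_pow_left₀ hb0 hb _
    _ = Real.exp (-(2 * d * a ^ d)) := by
        rw [← Real.exp_nat_mul]; congr 1; push_cast; ring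
    _ ≤ Real.exp (-(Real.exp (ε * L))) := by
        refine Real.exp_le_exp.2 (neg_le_neg ?_)
        have g9 : Real.exp (ε * L) = d * Real.exp (-((1 - ε) * L)) := by
          have : (d : ℝ) = Real.exp L := (Real.exp_log hd_pos).symm
          rw [this, ← Real.exp_add]
          congr 1
          ring
        have g10 : Real.exp (-((1 - ε) * L)) ≤ 2 * Real.exp (-((1 - ε) * L) - 1 / 2) := by
          rw [Real.exp_sub]
          have g11 : Real.exp (1 / 2) ≤ 2 := by
            have g12 : Real.exp (1 / 2) ^ 2 = Real.exp 1 := by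
              rw [← Real.exp_nat_mul]; norm_num
            have g13 := Real.exp_one_lt_d9
            have g14 : 0 < Real.exp (1 / 2) := Real.exp_pos _
            nlinarith
          have g15 : 0 < Real.exp (1 / 2) := Real.exp_pos _
          have g16 : 0 < Real.exp (-((1 - ε) * L)) := Real.exp_pos _
          rw [← mul_div_assoc, le_div_iff₀ g15]
          nlinarith
        rw [g9]
        calc (d : ℝ) * Real.exp (-((1 - ε) * L)) ≤ d * (2 * Real.exp (-((1 - ε) * L) - 1 / 2)) := by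
              gcongr
          _ ≤ d * (2 * a ^ d) := by gcongr
          _ = 2 * d * a ^ d := by ring

end Pool.Agent.Helper93K9.Wendel
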